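import Pool.Agent.H77.Lm.Valid

set_option autoImplicit false

/-! # Invariants of fronts, and the upper bound for them on mosaics -/

namespace Pool.Agent.H77.Lm

/-- weight of a singularity: `a` for a downward cusp, `b` for an upward cusp, `-(a + b)` for a
positive crossing and `a + b` for a negative crossing -/
def wgt (a b : ℤ) : Kind → ℤ
  | .lc d => if d then a else b
  | .rc d => if d then b else a
  | .cr d e => if d = e then -(a + b) else a + b

/-- total weight -/
def tot (a b : ℤ) (w : List Ev) : ℤ := (w.map fun e => wgt a b e.kind).sum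

theorem tot_nil (a b : ℤ) : tot a b [] = 0 := rfl

theorem tot_cons (a b : ℤ) (e : Ev) (w : List Ev) : tot a b (e :: w) = wgt a b e.kind + tot a b w := by
  simp [tot]

theorem tot_append (a b : ℤ) (u v : List Ev) : tot a b (u ++ v) = tot a b u + tot a b v := by
  simp [tot]

theorem tot_move (a b : ℤ) {m m' : List Ev} (h : Move m m') : tot a b m = tot a b m' := by
  cases h with
  | comm i m κ κ' => simp [tot, add_comm]
  | oneUp i c => cases c <;> simp [tot, wgt]
  | oneDown i c => cases c <;> simp [tot, wgt]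
  | twoLeftUp i c d => cases c <;> cases d <;> simp [tot, wgt]
  | twoLeftDown i c d => cases c <;> cases d <;> simp [tot, wgt]
  | twoRightUp i c d => cases c <;> cases d <;> simp [tot, wgt] <;> ring
  | twoRightDown i c d => cases c <;> cases d <;> simp [tot, wgt] <;> ring
  | three i c d e => cases c <;> cases d <;> cases e <;> simp [tot, wgt] <;> ring

/-- the total weight as an invariant of links -/
def linkTot (a b : ℤ) : Link → ℤ :=
  Quot.lift (fun F : Front => tot a b F.word) (by
    rintro F G ⟨u, v, m, m', hm, h1, h2⟩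
    simp only [h1, h2, tot_append, tot_move a b hm])

theorem linkTot_link (a b : ℤ) (F : Front) : linkTot a b F.link = tot a b F.word := rfl

/-! ## The sum over a mosaic -/

/-- weight of a tile -/
def tileTot (a b : ℤ) (t : Tile) : ℤ := tot a b (t.word 0)

theorem tot_tile (a b : ℤ) (t : Tile) (h : ℕ) : tot a b (t.word h) = tileTot a b t := by
  cases t <;> simp [Tile.word, tot, tileTot]

theorem tot_column (a b : ℤ) (T : ℕ → ℕ → Tile) (k i j h : ℕ) :
    tot a b (column T k i j h) = ∑ t ∈ Finset.range k, tileTot a b (T (i + t) (j + t)) := by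
  induction k generalizing i j h with
  | zero => simp [column, tot]
  | succ k ih =>
    rw [column, tot_append, tot_tile, ih, Finset.sum_range_succ']
    rw [add_comm]
    congr 1
    apply Finset.sum_congr rfl
    intro t _
    rw [show i + 1 + t = i + (t + 1) by ring, show j + 1 + t = j + (t + 1) by ring]

theorem tot_flatMap (a b : ℤ) (f : ℕ → List Ev) (m : ℕ) :
    tot a b ((List.range m).flatMap f) = ∑ c ∈ Finset.range m, tot a b (f c) := by
  induction m with
  | zero => simp [tot]
  | succ m ih => rw [List.range_succ, List.flatMap_append, tot_append, ih, Finset.sum_range_succ]; simp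

theorem diag_sum (N : ℕ) (f : ℕ → ℕ → ℤ) (hf : ∀ i j, N + 1 ≤ i ∨ N + 1 ≤ j → f i j = 0) :
    ∑ c ∈ Finset.range (2 * N + 1), ∑ t ∈ Finset.range (N + 1), f (c - N + t) (N - c + t) =
      ∑ i ∈ Finset.range (N + 1), ∑ j ∈ Finset.range (N + 1), f i j := by
  rw [← Finset.sum_product', ← Finset.sum_product']
  refine Finset.sum_bij_ne_zero (fun a _ _ => (a.1 - N + a.2, N - a.1 + a.2)) ?_ ?_ ?_ ?_
  · rintro ⟨c, t⟩ h1 h2
    simp only [Finset.mem_product, Finset.mem_range] at h1 ⊢
    by_contra h
    exact h2 (hf _ _ (by simp only; omega))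
  · rintro ⟨c, t⟩ h1 _ ⟨c', t'⟩ h3 _ h5
    simp only [Finset.mem_product, Finset.mem_range, Prod.mk.injEq] at *
    omega
  · rintro ⟨i, j⟩ h1 h2
    simp only [Finset.mem_product, Finset.mem_range] at h1
    have e1 : i + N - j - N + min i j = i := by omega
    have e2 : N - (i + N - j) + min i j = j := by omega
    refine ⟨(i + N - j, min i j), ?_, ?_, ?_⟩
    · simp only [Finset.mem_product, Finset.mem_range]; omega
    · simp only [e1, e2]; exact h2
    · simp only [e1, e2]
  · rintro ⟨c, t⟩ _ _
    rfl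

theorem tot_mosaic (a b : ℤ) {N : ℕ} (M : Mosaic (N + 1)) :
    tot a b M.word =
      ∑ i ∈ Finset.range (N + 1), ∑ j ∈ Finset.range (N + 1), tileTot a b (M.tile i j) := by
  rw [Mosaic.word, tot_flatMap, ← diag_sum N (fun i j => tileTot a b (M.tile i j))]
  · rw [show 2 * (N + 1) - 1 = 2 * N + 1 by omega]
    apply Finset.sum_congr rfl
    intro c _
    rw [tot_column, show N + 1 - 1 = N by omega]
  · intro i j h
    simp [M.outside i j h, tileTot, Tile.word, tot]

/-- `1` for a strand running to the right, `-1` for a strand running to the left -/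
def dir : Option Bool → ℤ
  | none => 0
  | some true => 1
  | some false => -1

theorem tile_bound (t : Tile) :
    tileTot 3 (-5) t ≤ 2 - dir t.sw - dir t.ne + dir t.nw + dir t.se := by
  rcases t with _ | d | d | d | d | d | d | ⟨d, e⟩ | ⟨d, e⟩ | ⟨d, e⟩ <;>
    first
      | (cases d <;> cases e <;>
          simp [tileTot, tot, Tile.word, wgt, dir, Tile.sw, Tile.nw, Tile.se, Tile.ne])
      | (cases d <;>
          simp [tileTot, tot, Tile.word, wgt, dir, Tile.sw, Tile.nw, Tile.se, Tile.ne])
      | simp [tileTot, tot, Tile.word, dir, Tile.sw, Tile.nw, Tile.se, Tile.ne]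

theorem tile_flux (t : Tile) : dir t.nw - dir t.ne = dir t.se - dir t.sw := by
  rcases t with _ | d | d | d | d | d | d | ⟨d, e⟩ | ⟨d, e⟩ | ⟨d, e⟩ <;>
    first
      | (cases d <;> cases e <;> simp [dir, Tile.sw, Tile.nw, Tile.se, Tile.ne])
      | (cases d <;> simp [dir, Tile.sw, Tile.nw, Tile.se, Tile.ne])
      | simp [dir, Tile.sw, Tile.nw, Tile.se, Tile.ne]

theorem by_parts (n : ℕ) (x : ℤ) (f : ℕ → ℤ) :
    ∑ j ∈ Finset.range n, (x + j) * (f (j + 1) - f j) =
      (x + n - 1) * f n - (x - 1) * f 0 - ∑ j ∈ Finset.range n, f j := by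
  induction n with
  | zero => simp
  | succ n ih =>
    rw [Finset.sum_range_succ, ih, Finset.sum_range_succ]
    push_cast
    ring

theorem flux_zero {n : ℕ} (M : Mosaic n) :
    ∑ i ∈ Finset.range n, ∑ j ∈ Finset.range n,
      (dir (M.tile i j).se - dir (M.tile i j).sw) = 0 := by
  have hB : ∀ i : ℕ, ∑ j ∈ Finset.range n, ((i : ℤ) + j) *
      (dir (M.tile i (j + 1)).se - dir (M.tile i j).se) =
      - ∑ j ∈ Finset.range n, dir (M.tile i j).se := by
    intro i
    rw [by_parts n i (fun j => dir (M.tile i j).se)]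
    rw [M.boundary_se, M.outside i n (Or.inr le_rfl)]
    simp [dir, Tile.se]
  have hA : ∀ j : ℕ, ∑ i ∈ Finset.range n, ((j : ℤ) + i) *
      (dir (M.tile (i + 1) j).sw - dir (M.tile i j).sw) =
      - ∑ i ∈ Finset.range n, dir (M.tile i j).sw := by
    intro j
    rw [by_parts n j (fun i => dir (M.tile i j).sw)]
    rw [M.boundary_sw, M.outside n j (Or.inl le_rfl)]
    simp [dir, Tile.sw]
  have key : ∑ i ∈ Finset.range n, ∑ j ∈ Finset.range n, ((i : ℤ) + j) *
      (dir (M.tile i (j + 1)).se - dir (M.tile i j).se) =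
      ∑ i ∈ Finset.range n, ∑ j ∈ Finset.range n, ((j : ℤ) + i) *
      (dir (M.tile (i + 1) j).sw - dir (M.tile i j).sw) := by
    apply Finset.sum_congr rfl
    intro i _
    apply Finset.sum_congr rfl
    intro j _
    have := tile_flux (M.tile i j)
    rw [M.nw_se, M.ne_sw] at this
    have h2 : dir (M.tile i (j + 1)).se - dir (M.tile i j).se =
      dir (M.tile (i + 1) j).sw - dir (M.tile i j).sw := by linarith
    rw [h2]
    ring
  rw [Finset.sum_comm (f := fun i j : ℕ => ((j : ℤ) + i) *
      (dir (M.tile (i + 1) j).sw - dir (M.tile i j).sw))] at key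
  simp only [hB, hA, Finset.sum_neg_distrib] at key
  rw [Finset.sum_comm (f := fun j i : ℕ => dir (M.tile i j).sw)] at key
  simp only [Finset.sum_sub_distrib]
  linarith

/-- `2 * (4 * rot + tb) ≤ 2 * n ^ 2` for the front of an `n`-mosaic. -/
theorem mosaic_bound {n : ℕ} (M : Mosaic n) : tot 3 (-5) M.word ≤ 2 * (n : ℤ) ^ 2 := by
  cases n with
  | zero => simp [Mosaic.word, tot]
  | succ N =>
    rw [tot_mosaic]
    have h1 : ∑ i ∈ Finset.range (N + 1), ∑ j ∈ Finset.range (N + 1), tileTot 3 (-5) (M.tile i j) ≤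
        ∑ i ∈ Finset.range (N + 1), ∑ j ∈ Finset.range (N + 1),
          (2 + 2 * (dir (M.tile i j).se - dir (M.tile i j).sw)) := by
      apply Finset.sum_le_sum
      intro i _
      apply Finset.sum_le_sum
      intro j _
      have h2 := tile_bound (M.tile i j)
      have h3 := tile_flux (M.tile i j)
      linarith
    refine h1.trans (le_of_eq ?_)
    have h4 := flux_zero M
    simp only [Finset.sum_add_distrib, ← Finset.mul_sum, h4]
    simp
    ring

theorem hasMosaic_bound {n : ℕ} {Λ : Knot} (h : HasMosaic n Λ) :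
    linkTot 3 (-5) Λ.1 ≤ 2 * (n : ℤ) ^ 2 := by
  obtain ⟨M, hM⟩ := h
  rw [← hM, linkTot_link]
  exact mosaic_bound M

end Pool.Agent.H77.Lm
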