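import Pool.Agent.H77.Lm.Family

set_option autoImplicit false

/-! # Mosaics almost all of whose tiles have two cusps -/

namespace Pool.Agent.H77.Lm

/-- the height function which oscillates between the upper and the lower boundary -/
def combY (N c : ℕ) : ℕ :=
  if c = 0 ∨ c = 2 * N then N
  else if c % 2 = 1 then min (N + c) (3 * N - c)
  else max (N - c) (c - N) + 2

theorem comb_adm (N : ℕ) (hN : 1 ≤ N) : Adm N (combY N) where
  pos := hN
  par := by
    intro c hc
    unfold combY
    split_ifs <;> omega
  zero := by simp [combY]
  last := by simp [combY]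
  low := by
    intro c h1 h2
    unfold combY
    split_ifs <;> omega
  high := by
    intro c h1 h2
    unfold combY
    split_ifs <;> omega

theorem comb_odd (N k : ℕ) (hk : 2 * k + 3 ≤ 2 * N) :
    (List.replicate ((max (combY N (2 * k + 1)) (combY N (2 * k + 1 + 1)) -
      min (combY N (2 * k + 1)) (combY N (2 * k + 1 + 1))) / 2)
        (decide (combY N (2 * k + 1 + 1) < combY N (2 * k + 1)))).count true ≥
      min (2 * k) (2 * N - 2 * k - 3) := by
  have h1 : combY N (2 * k + 1) = min (N + (2 * k + 1)) (3 * N - (2 * k + 1)) := by
    unfold combY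
    rw [if_neg (by omega), if_pos (by omega)]
  have h2 : combY N (2 * k + 1 + 1) = max (N - (2 * k + 2)) (2 * k + 2 - N) + 2 := by
    unfold combY
    rw [if_neg (by omega), if_neg (by omega)]
  rw [h1, h2]
  by_cases h : max (N - (2 * k + 2)) (2 * k + 2 - N) + 2 <
      min (N + (2 * k + 1)) (3 * N - (2 * k + 1))
  · rw [decide_eq_true h, List.count_replicate_self]
    omega
  · have : min (2 * k) (2 * N - 2 * k - 3) = 0 := by omega
    omega

theorem comb_first (M k : ℕ) (hk : k ≤ M) :
    ((List.range (2 * k)).flatMap fun c =>
      List.replicate ((max (combY (2 * M + 1) c) (combY (2 * M + 1) (c + 1)) -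
        min (combY (2 * M + 1) c) (combY (2 * M + 1) (c + 1))) / 2)
        (decide (combY (2 * M + 1) (c + 1) < combY (2 * M + 1) c))).count true + k ≥ k * k := by
  induction k with
  | zero => simp
  | succ k ih =>
    have h1 := ih (by omega)
    have h2 := comb_odd (2 * M + 1) k (by omega)
    rw [show 2 * (k + 1) = 2 * k + 1 + 1 by ring, List.range_succ, List.range_succ,
      List.flatMap_append, List.flatMap_append, List.flatMap_singleton, List.flatMap_singleton,
      List.count_append, List.count_append]
    have h3 : min (2 * k) (2 * (2 * M + 1) - 2 * k - 3) = 2 * k := by omega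
    rw [h3] at h2
    have h4 : (k + 1) * (k + 1) = k * k + 2 * k + 1 := by ring
    omega

theorem comb_second (M k : ℕ) (hk : k ≤ M) :
    ((List.range (2 * (M + k))).flatMap fun c =>
      List.replicate ((max (combY (2 * M + 1) c) (combY (2 * M + 1) (c + 1)) -
        min (combY (2 * M + 1) c) (combY (2 * M + 1) (c + 1))) / 2)
        (decide (combY (2 * M + 1) (c + 1) < combY (2 * M + 1) c))).count true + M + k * k ≥
      M * M + 2 * M * k := by
  induction k with
  | zero =>
    have := comb_first M M le_rfl
    simpa using this
  | succ k ih =>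
    have h1 := ih (by omega)
    have h2 := comb_odd (2 * M + 1) (M + k) (by omega)
    rw [show 2 * (M + (k + 1)) = 2 * (M + k) + 1 + 1 by ring, List.range_succ, List.range_succ,
      List.flatMap_append, List.flatMap_append, List.flatMap_singleton, List.flatMap_singleton,
      List.count_append, List.count_append]
    have h3 : min (2 * (M + k)) (2 * (2 * M + 1) - 2 * (M + k) - 3) = 2 * M - 2 * k - 1 := by omega
    rw [h3] at h2
    have h4 : (k + 1) * (k + 1) = k * k + 2 * k + 1 := by ring
    have h5 : 2 * M * (k + 1) = 2 * M * k + 2 * M := by ring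
    omega

/-- number of downward zigzags of the comb -/
theorem comb_count (M : ℕ) :
    2 * M * M ≤ (zigs (2 * M + 1) (combY (2 * M + 1))).count true + M := by
  have h := comb_second M M le_rfl
  unfold zigs
  rw [show 2 * (2 * M + 1) - 1 = 2 * (M + M) + 1 by omega, List.range_succ, List.flatMap_append,
    List.count_append]
  have h2 : M * M + 2 * M * M = 2 * M * M + M * M := by ring
  omega

/-- the standard knot has a mosaic of size at most `n` -/
def Small (n : ℕ) (ts : List Bool) : Prop := ∃ k ≤ n, HasMosaic k (stdKnot ts)

theorem walk (n : ℕ) (b : ℕ) (ts : List Bool) (hb : ts.count false = b) (h : Small n ts)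
    (h0 : ¬ Small n (List.replicate (ts.count true) true)) :
    ∃ u v, Small n (u ++ false :: v) ∧ ¬ Small n (u ++ v) ∧
      (u ++ v).count true = ts.count true := by
  induction b generalizing ts with
  | zero =>
    exfalso
    have : ts = List.replicate (ts.count true) true := by
      have h1 : ∀ x ∈ ts, x = true := by
        intro x hx
        by_contra hne
        have : x = false := by simpa using hne
        subst this
        exact List.count_eq_zero.mp hb hx
      have h2 : ts = List.replicate ts.length true := List.eq_replicate_of_mem h1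
      rw [h2]
      simp
    exact h0 (this ▸ h)
  | succ b ih =>
    have hmem : false ∈ ts := by
      apply List.count_pos_iff.mp
      omega
    obtain ⟨u, v, rfl⟩ := List.append_of_mem hmem
    by_cases h1 : Small n (u ++ v)
    · have e1 : (u ++ v).count true = (u ++ false :: v).count true := by
        simp [List.count_append]
      have e2 : (u ++ v).count false = b := by
        simp only [List.count_append, List.count_cons_self] at hb ⊢
        omega
      obtain ⟨u', v', h2, h3, h4⟩ := ih (u ++ v) e2 h1 (by rw [e1]; exact h0)
      exact ⟨u', v', h2, h3, by rw [h4, e1]⟩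
    · exact ⟨u, v, h, h1, by simp [List.count_append]⟩

theorem family (M : ℕ) (hM : 6 ≤ M) :
    ∃ u v, Small (2 * M + 2) (u ++ false :: v) ∧ ¬ Small (2 * M + 2) (u ++ v) ∧
      M ≤ (u ++ v).count true := by
  have h1 := std_mosaic (comb_adm (2 * M + 1) (by omega))
  have h2 := comb_count M
  set ts := zigs (2 * M + 1) (combY (2 * M + 1)) with hts
  have h3 : ¬ Small (2 * M + 2) (List.replicate (ts.count true) true) := by
    rintro ⟨k, hk, h⟩
    have h4 := hasMosaic_bound h
    rw [std_tot] at h4
    simp only [List.count_replicate_self] at h4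
    have h5 : (List.replicate (ts.count true) true).count false = 0 := by
      rw [List.count_replicate]; simp
    rw [h5] at h4
    have h6 : (k : ℤ) ≤ 2 * M + 2 := by exact_mod_cast hk
    have h7 : (2 : ℤ) * M * M ≤ ts.count true + M := by exact_mod_cast h2
    have h8 : (6 : ℤ) ≤ M := by exact_mod_cast hM
    have h9 : (0 : ℤ) ≤ k := by positivity
    have h10 : (k : ℤ) ^ 2 ≤ (2 * M + 2) ^ 2 := pow_le_pow_left₀ h9 h6 2
    have h11 : (0 : ℤ) ≤ (M - 6) * M := mul_nonneg (by linarith) (by linarith)
    push_cast at h4
    nlinarith
  obtain ⟨u, v, h4, h5, h6⟩ := walk _ _ ts rfl ⟨2 * M + 1 + 1, le_rfl, h1⟩ h3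
  refine ⟨u, v, h4, h5, ?_⟩
  rw [h6]
  nlinarith

end Pool.Agent.H77.Lm
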