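import Pool.Agent.H77.Lm.Bound

set_option autoImplicit false

/-! # Planar isotopies of fronts -/

namespace Pool.Agent.H77.Lm

/-- one exchange of two singularities -/
inductive CStep : List Ev → List Ev → Prop
  | mk (u v : List Ev) (i m : ℕ) (κ κ' : Kind) :
      CStep (u ++ [⟨i, κ⟩, ⟨i + κ.out.length + m, κ'⟩] ++ v)
        (u ++ [⟨i + κ.inp.length + m, κ'⟩, ⟨i, κ⟩] ++ v)

/-- planar isotopy -/
def CEq : List Ev → List Ev → Prop := Relation.EqvGen CStep

theorem CEq.refl (u : List Ev) : CEq u u := Relation.EqvGen.refl u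

theorem CEq.symm {u v : List Ev} (h : CEq u v) : CEq v u := Relation.EqvGen.symm _ _ h

theorem CEq.trans {u v w : List Ev} (h : CEq u v) (h' : CEq v w) : CEq u w :=
  Relation.EqvGen.trans _ _ _ h h'

instance : Trans CEq CEq CEq := ⟨CEq.trans⟩

theorem CEq.append_left (a : List Ev) {u v : List Ev} (h : CEq u v) : CEq (a ++ u) (a ++ v) := by
  induction h with
  | rel x y h =>
    obtain ⟨u, v, i, m, κ, κ'⟩ := h
    have := CStep.mk (a ++ u) v i m κ κ'
    simp only [List.append_assoc] at this ⊢
    exact Relation.EqvGen.rel _ _ this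
  | refl x => exact CEq.refl _
  | symm x y _ ih => exact ih.symm
  | trans x y z _ _ ih ih' => exact ih.trans ih'

theorem CEq.append_right (a : List Ev) {u v : List Ev} (h : CEq u v) : CEq (u ++ a) (v ++ a) := by
  induction h with
  | rel x y h =>
    obtain ⟨u, v, i, m, κ, κ'⟩ := h
    have := CStep.mk u (v ++ a) i m κ κ'
    simp only [List.append_assoc] at this ⊢
    exact Relation.EqvGen.rel _ _ this
  | refl x => exact CEq.refl _
  | symm x y _ ih => exact ih.symm
  | trans x y z _ _ ih ih' => exact ih.trans ih'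

theorem CEq.append {a b c d : List Ev} (h : CEq a b) (h' : CEq c d) : CEq (a ++ c) (b ++ d) :=
  (CEq.append_right c h).trans (CEq.append_left b h')

theorem CEq.of_eq {u v : List Ev} (h : u = v) : CEq u v := h ▸ CEq.refl u

/-! ## Validity -/

theorem split_le {α : Type*} {p X p' Y : List α} (h : p ++ X = p' ++ Y)
    (hl : p.length ≤ p'.length) : ∃ a, p' = p ++ a ∧ X = a ++ Y := by
  rcases List.append_eq_append_iff.mp h with h1 | ⟨c, h1, h2⟩
  · exact h1
  · have h3 := congrArg List.length h1
    simp only [List.length_append] at h3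
    have h4 : c = [] := List.length_eq_zero_iff.mp (by omega)
    subst h4
    exact ⟨[], by simpa using h1.symm, by simpa using h2.symm⟩

theorem swap_run (i m : ℕ) (κ κ' : Kind) (s t : List Bool) :
    Run s [⟨i, κ⟩, ⟨i + κ.out.length + m, κ'⟩] t ↔
      Run s [⟨i + κ.inp.length + m, κ'⟩, ⟨i, κ⟩] t := by
  constructor
  · rintro ⟨r, ⟨p, q, hp, hs, hr⟩, r', ⟨p', q', hp', hs', hr'⟩, rfl⟩
    simp only at hp hp' hs hs' hr hr'
    have e1 : (p ++ κ.out) ++ q = p' ++ (κ'.inp ++ q') := by rw [← hr, hs', List.append_assoc]
    obtain ⟨a, ha, hq⟩ := split_le e1 (by simp; omega)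
    have hal : a.length = m := by
      have := congrArg List.length ha
      simp only [List.length_append] at this
      omega
    refine ⟨p ++ κ.inp ++ a ++ κ'.out ++ q', ⟨p ++ κ.inp ++ a, q', ?_, ?_, ?_⟩, r',
      ⟨p, a ++ κ'.out ++ q', hp, ?_, ?_⟩, rfl⟩
    · simp only [List.length_append]; omega
    · rw [hs, hq]; simp
    · simp
    · simp
    · rw [hr', ha]; simp
  · rintro ⟨r, ⟨p', q', hp', hs', hr'⟩, r', ⟨p, q, hp, hs, hr⟩, rfl⟩
    simp only at hp hp' hs hs' hr hr'
    have e1 : (p ++ κ.inp) ++ q = p' ++ (κ'.out ++ q') := by rw [← hs, hr', List.append_assoc]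
    obtain ⟨a, ha, hq⟩ := split_le e1 (by simp; omega)
    have hal : a.length = m := by
      have := congrArg List.length ha
      simp only [List.length_append] at this
      omega
    refine ⟨p ++ κ.out ++ a ++ κ'.inp ++ q', ⟨p, a ++ κ'.inp ++ q', hp, ?_, ?_⟩, r',
      ⟨p ++ κ.out ++ a, q', ?_, ?_, ?_⟩, rfl⟩
    · rw [hs', ha]; simp
    · simp
    · simp only [List.length_append]; omega
    · simp
    · rw [hr, hq]; simp

theorem CStep.run {w w' : List Ev} (h : CStep w w') (s t : List Bool) :
    Run s w t ↔ Run s w' t := by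
  obtain ⟨u, v, i, m, κ, κ'⟩ := h
  simp only [run_append, swap_run]

theorem CEq.run {w w' : List Ev} (h : CEq w w') (s t : List Bool) : Run s w t ↔ Run s w' t := by
  induction h with
  | rel x y h => exact h.run s t
  | refl x => rfl
  | symm x y _ ih => exact ih.symm
  | trans x y z _ _ ih ih' => exact ih.trans ih'

theorem CEq.link {w w' : List Ev} (h : CEq w w') (hw : Run [] w []) (hw' : Run [] w' []) :
    Front.link ⟨w, hw⟩ = Front.link ⟨w', hw'⟩ := by
  induction h with
  | rel x y h =>
    obtain ⟨u, v, i, m, κ, κ'⟩ := h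
    exact Quot.sound ⟨u, v, _, _, Move.comm i m κ κ', rfl, rfl⟩
  | refl x => rfl
  | symm x y _ ih => exact (ih hw' hw).symm
  | trans x y z h1 h2 ih ih' =>
    have hy : Run [] y [] := (CEq.run h1 _ _).mp hw
    exact (ih hw hy).trans (ih' hy hw')

/-! ## Moving a list of singularities -/

/-- shift a piece of a front upwards by `k` strands -/
def raise (k : ℕ) (W : List Ev) : List Ev := W.map fun f => ⟨f.ht + k, f.kind⟩

theorem raise_zero (W : List Ev) : raise 0 W = W := by
  simp [raise]

theorem raise_raise (k l : ℕ) (W : List Ev) : raise k (raise l W) = raise (l + k) W := by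
  simp [raise, Function.comp_def, add_assoc]

theorem raise_append (k : ℕ) (U V : List Ev) : raise k (U ++ V) = raise k U ++ raise k V := by
  simp [raise]

/-- A singularity `κ` is moved through a piece `W` which lies above it. -/
theorem pass (i : ℕ) (κ : Kind) (W : List Ev) (hW : ∀ f ∈ W, i ≤ f.ht) :
    CEq (⟨i, κ⟩ :: raise κ.out.length W) (raise κ.inp.length W ++ [⟨i, κ⟩]) := by
  induction W with
  | nil => exact CEq.refl _
  | cons f W ih =>
    obtain ⟨a, b⟩ := f
    have hf : i ≤ a := hW ⟨a, b⟩ (by simp)
    obtain ⟨m, rfl⟩ := Nat.exists_eq_add_of_le hf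
    have ih' := ih (fun f hf => hW f (List.mem_cons_of_mem _ hf))
    have h1 : CEq (⟨i, κ⟩ :: raise κ.out.length (⟨i + m, b⟩ :: W))
        (⟨i + m + κ.inp.length, b⟩ :: ⟨i, κ⟩ :: raise κ.out.length W) := by
      have h2 := CStep.mk [] (raise κ.out.length W) i m κ b
      have h3 : i + κ.out.length + m = i + m + κ.out.length := by ring
      have h4 : i + κ.inp.length + m = i + m + κ.inp.length := by ring
      rw [h3, h4] at h2
      exact Relation.EqvGen.rel _ _ (by simpa [raise] using h2)
    exact h1.trans (CEq.append_left [⟨i + m + κ.inp.length, b⟩] ih')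

/-- `q` left cusps on top of each other, `h` strands below them -/
def lefts (e : Bool) : ℕ → ℕ → List Ev
  | _, 0 => []
  | h, q + 1 => ⟨h, .lc e⟩ :: lefts e (h + 2) q

theorem lefts_raise (e : Bool) (h q k : ℕ) : raise k (lefts e h q) = lefts e (h + k) q := by
  induction q generalizing h with
  | zero => rfl
  | succ q ih =>
    have := ih (h + 2)
    simp only [lefts, raise, List.map_cons] at this ⊢
    rw [this]
    congr 2
    ring

theorem lefts_ht (e : Bool) (h q : ℕ) : ∀ f ∈ lefts e h q, h ≤ f.ht := by
  induction q generalizing h with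
  | zero => simp [lefts]
  | succ q ih =>
    intro f hf
    rw [lefts, List.mem_cons] at hf
    rcases hf with rfl | hf
    · exact le_rfl
    · exact (by omega : h ≤ h + 2).trans (ih _ f hf)

theorem lefts_snoc (e : Bool) (h q : ℕ) :
    lefts e h (q + 1) = lefts e h q ++ [⟨h + 2 * q, .lc e⟩] := by
  induction q generalizing h with
  | zero => rfl
  | succ q ih =>
    rw [lefts, ih, lefts]
    simp
    ring

theorem pass_lefts (e : Bool) (h q : ℕ) (W : List Ev) (hW : ∀ f ∈ W, h ≤ f.ht) :
    CEq (lefts e h q ++ raise (2 * q) W) (W ++ lefts e h q) := by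
  induction q generalizing h W with
  | zero => simp [lefts, raise_zero, CEq.refl]
  | succ q ih =>
    have h1 := pass h (.lc e) W hW
    simp only [Kind.out, Kind.inp, List.length_cons, List.length_nil, raise_zero] at h1
    have h2 := ih (h + 2) (raise 2 W) (by
      intro f hf
      simp only [raise, List.mem_map] at hf
      obtain ⟨g, hg, rfl⟩ := hf
      have := hW g hg
      simp only
      omega)
    rw [raise_raise] at h2
    rw [show 2 * (q + 1) = 2 + 2 * q by ring]
    have h3 := CEq.append_left [⟨h, .lc e⟩] h2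
    have h4 := CEq.append_right (lefts e (h + 2) q) h1
    simpa [lefts] using h3.trans h4

theorem pass_rights (d : Bool) (i q : ℕ) (W : List Ev) (hW : ∀ f ∈ W, i ≤ f.ht) :
    CEq (List.replicate q ⟨i, .rc d⟩ ++ W) (raise (2 * q) W ++ List.replicate q ⟨i, .rc d⟩) := by
  induction q generalizing W with
  | zero => simp [raise_zero, CEq.refl]
  | succ q ih =>
    have h1 := pass i (.rc d) W hW
    simp only [Kind.out, Kind.inp, List.length_cons, List.length_nil, raise_zero] at h1
    have h2 := ih (raise 2 W) (by
      intro f hf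
      simp only [raise, List.mem_map] at hf
      obtain ⟨g, hg, rfl⟩ := hf
      have := hW g hg
      simp only
      omega)
    rw [raise_raise] at h2
    rw [show 2 * (q + 1) = 2 + 2 * q by ring]
    have h3 := CEq.append_left (List.replicate q ⟨i, .rc d⟩) h1
    have h4 := CEq.append_right [⟨i, .rc d⟩] h2
    have h5 := h3
    simp only [List.replicate_succ', List.append_assoc] at *
    exact h5.trans (by simpa using h4)

/-! ## Blocks of zigzags -/

/-- a zigzag on the strand number 1, directed to the right; `true`: downward, `false`: upward -/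
def zig : Bool → List Ev
  | true => [⟨1, .lc true⟩, ⟨2, .rc false⟩]
  | false => [⟨2, .lc false⟩, ⟨1, .rc true⟩]

theorem block_down (q : ℕ) :
    CEq (lefts true 1 q ++ List.replicate q ⟨2, .rc false⟩)
      ((List.replicate q true).flatMap zig) := by
  induction q with
  | zero => exact CEq.refl _
  | succ q ih =>
    have h1 := pass_rights false 2 q [⟨2, .rc false⟩] (by simp)
    have h2 := pass_lefts true 1 q [⟨1, .lc true⟩, ⟨2, .rc false⟩] (by simp)
    have h3 := CEq.append_left (lefts true 1 (q + 1)) h1
    rw [List.replicate_succ']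
    refine h3.trans ?_
    rw [lefts_snoc]
    have h4 := CEq.append_right (List.replicate q ⟨2, .rc false⟩) h2
    have h5 := CEq.append_left [⟨1, .lc true⟩, ⟨2, .rc false⟩] ih
    have h6 := h4.trans (by simpa using h5)
    simpa [raise, zig, List.replicate_succ] using h6

theorem block_up (q : ℕ) :
    CEq (lefts false 2 q ++ List.replicate q ⟨1, .rc true⟩)
      ((List.replicate q false).flatMap zig) := by
  induction q with
  | zero => exact CEq.refl _
  | succ q ih =>
    have h1 := pass 1 (.rc true) (lefts false 2 q)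
      (fun f hf => (by omega : 1 ≤ 2).trans (lefts_ht _ _ _ f hf))
    simp only [Kind.out, Kind.inp, List.length_cons, List.length_nil, raise_zero,
      lefts_raise] at h1
    have h3 := CEq.append_left [⟨2, .lc false⟩]
      (CEq.append_right (List.replicate q ⟨1, .rc true⟩) h1.symm)
    have h5 := CEq.append_left [⟨2, .lc false⟩, ⟨1, .rc true⟩] ih
    rw [List.replicate_succ, List.replicate_succ, lefts]
    have h6 := h3.trans (by simpa using h5)
    simpa [zig] using h6

end Pool.Agent.H77.Lm
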