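import Mathlib

set_option autoImplicit false

/-!
# Legendrian fronts and Legendrian mosaics

An oriented generic front is described by the list of its singularities from left to right. The
strands (branches over the same `x`) are numbered `0, 1, 2, ...` from bottom to top, and each of them
has a direction: `true` if it runs to the right, `false` if it runs to the left. The crossings carry
no further information, since the strand with the more negative slope passes over.
-/

namespace Pool.Agent.H77.Lm

/-! ## Fronts -/

/-- The singularities of an oriented front.
`lc d`: a left cusp, whose lower branch has direction `d` (its upper branch has direction `!d`).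
`rc d`: a right cusp, whose lower branch has direction `d` (its upper branch has direction `!d`).
`cr d e`: a crossing; the strand which is lower on the left of it has direction `d`, the strand which
is upper on the left of it has direction `e`. -/
inductive Kind
  | lc (d : Bool)
  | rc (d : Bool)
  | cr (d e : Bool)
  deriving DecidableEq

namespace Kind

/-- The directions of the strands which come into the singularity from the left (bottom to top). -/
def inp : Kind → List Bool
  | lc _ => []
  | rc d => [d, !d]
  | cr d e => [d, e]

/-- The directions of the strands which leave the singularity to the right (bottom to top). -/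
def out : Kind → List Bool
  | lc d => [d, !d]
  | rc _ => []
  | cr d e => [e, d]

/-- The same singularity with the opposite orientation. -/
def rev : Kind → Kind
  | lc d => lc !d
  | rc d => rc !d
  | cr d e => cr (!d) (!e)

/-- The singularity without its orientation: `0` for a left cusp, `1` for a right cusp, `2` for a
crossing. -/
def shape : Kind → Fin 3
  | lc _ => 0
  | rc _ => 1
  | cr _ _ => 2

end Kind

/-- A singularity of a front, together with the number `ht` of strands which pass below it. -/
structure Ev where
  ht : ℕ
  kind : Kind
  deriving DecidableEq

/-- The list `t` of directions of the strands on the right of the singularity `e`, if `s` is the list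
on the left of it. -/
def Step (s : List Bool) (e : Ev) (t : List Bool) : Prop :=
  ∃ p q : List Bool, p.length = e.ht ∧ s = p ++ e.kind.inp ++ q ∧ t = p ++ e.kind.out ++ q

/-- `w` is the list of singularities (from left to right) of a piece of a front, with strands of
directions `s` at its left end and of directions `t` at its right end. -/
def Run : List Bool → List Ev → List Bool → Prop
  | s, [], t => s = t
  | s, e :: w, t => ∃ r, Step s e r ∧ Run r w t

/-- An oriented front of a closed Legendrian curve. -/
structure Front where
  word : List Ev
  closed : Run [] word []

/-- Elementary changes of (pieces of) fronts: planar isotopies, which change the order of two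
singularities one of which lies above the other, and the Legendrian Reidemeister moves. The
directions `c`, `d`, `e` are those of the strands involved. -/
inductive Move : List Ev → List Ev → Prop
  /-- two singularities `κ` (lower) and `κ'` (upper), with `m` strands between them -/
  | comm (i m : ℕ) (κ κ' : Kind) :
      Move [⟨i, κ⟩, ⟨i + κ.out.length + m, κ'⟩] [⟨i + κ.inp.length + m, κ'⟩, ⟨i, κ⟩]
  /-- type I, for the strand `i` of direction `c` -/
  | oneUp (i : ℕ) (c : Bool) : Move [] [⟨i + 1, .lc c⟩, ⟨i, .cr c c⟩, ⟨i + 1, .rc c⟩]
  | oneDown (i : ℕ) (c : Bool) : Move [] [⟨i, .lc !c⟩, ⟨i + 1, .cr c c⟩, ⟨i, .rc !c⟩]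
  /-- type II: a strand of direction `c` is moved over a left cusp -/
  | twoLeftUp (i : ℕ) (c d : Bool) :
      Move [⟨i, .lc d⟩] [⟨i + 1, .lc d⟩, ⟨i, .cr c d⟩, ⟨i + 1, .cr c !d⟩]
  | twoLeftDown (i : ℕ) (c d : Bool) :
      Move [⟨i + 1, .lc d⟩] [⟨i, .lc d⟩, ⟨i + 1, .cr (!d) c⟩, ⟨i, .cr d c⟩]
  /-- type II: a strand of direction `c` is moved over a right cusp -/
  | twoRightUp (i : ℕ) (c d : Bool) :
      Move [⟨i, .rc d⟩] [⟨i + 1, .cr (!d) c⟩, ⟨i, .cr d c⟩, ⟨i + 1, .rc d⟩]
  | twoRightDown (i : ℕ) (c d : Bool) :
      Move [⟨i + 1, .rc d⟩] [⟨i, .cr c d⟩, ⟨i + 1, .cr c !d⟩, ⟨i, .rc d⟩]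
  /-- type III -/
  | three (i : ℕ) (c d e : Bool) :
      Move [⟨i, .cr c d⟩, ⟨i + 1, .cr c e⟩, ⟨i, .cr d e⟩]
        [⟨i + 1, .cr d e⟩, ⟨i, .cr c e⟩, ⟨i + 1, .cr c d⟩]

/-- The front `G` is obtained from the front `F` by one elementary change. -/
def FrontMove (F G : Front) : Prop :=
  ∃ u v m m' : List Ev, Move m m' ∧ F.word = u ++ m ++ v ∧ G.word = u ++ m' ++ v

/-- Oriented Legendrian links up to Legendrian isotopy. -/
def Link : Type := Quot FrontMove

/-- The class of a front. -/
def Front.link (F : Front) : Link := Quot.mk _ F

/-- A front is the front of a knot if it is not empty and has exactly two orientations, namely the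
given one and the opposite one. (A front with `m` components has `2 ^ m` orientations.) -/
def Front.IsKnot (F : Front) : Prop :=
  F.word ≠ [] ∧ ∀ G : Front,
    G.word.map (fun e => (e.ht, e.kind.shape)) = F.word.map (fun e => (e.ht, e.kind.shape)) →
      G.word = F.word ∨ G.word = F.word.map fun e => ⟨e.ht, e.kind.rev⟩

/-- Oriented Legendrian knots up to Legendrian isotopy. -/
def Knot : Type := {Λ : Link // ∃ F : Front, F.IsKnot ∧ F.link = Λ}

/-! ## Stabilizations -/

/-- A zigzag on the strand `i` of direction `c`. Its two cusps are both downward or both upward
oriented. -/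
inductive Zigzag : List Ev → Prop
  | above (i : ℕ) (c : Bool) : Zigzag [⟨i + 1, .lc !c⟩, ⟨i, .rc c⟩]
  | below (i : ℕ) (c : Bool) : Zigzag [⟨i, .lc c⟩, ⟨i + 1, .rc !c⟩]

/-- `Λ'` is a stabilization (positive or negative) of `Λ`: it has a front which is obtained from a
front of `Λ` by replacing a small piece of a strand by a zigzag. -/
def IsStabilization (Λ Λ' : Knot) : Prop :=
  ∃ (F F' : Front) (u v z : List Ev), F.link = Λ.1 ∧ F'.link = Λ'.1 ∧ Zigzag z ∧
    F.word = u ++ v ∧ F'.word = u ++ z ++ v

/-! ## Mosaics -/

/-- The ten tiles of Legendrian mosaics, together with an orientation of their arcs. A tile is a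
square rotated by 45 degrees; its edges are called `sw`, `nw`, `se`, `ne`. The direction of an arc at
an edge is `true` if it runs to the right. The arcs join the midpoints of the following edges.
`cap`: `sw`, `se`. `cup`: `nw`, `ne`. `rcusp`: `sw`, `nw` (a right cusp at the left corner of the
tile). `lcusp`: `se`, `ne` (a left cusp at the right corner). `up`: `sw`, `ne` (slope `1`).
`down`: `nw`, `se` (slope `-1`). `capcup`: both `cap` and `cup`. `cusps`: both `rcusp` and `lcusp`.
`cross`: both `up` and `down`. For a cusp, the direction given is the direction of its lower
branch. -/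
inductive Tile
  | blank
  | cap (d : Bool)
  | cup (d : Bool)
  | rcusp (d : Bool)
  | lcusp (d : Bool)
  | up (d : Bool)
  | down (d : Bool)
  | capcup (d e : Bool)
  | cusps (d e : Bool)
  | cross (d e : Bool)
  deriving DecidableEq

namespace Tile

/-- the direction of the curve at the edge `sw`, or `none` if the curve does not meet this edge -/
def sw : Tile → Option Bool
  | cap d => some d
  | rcusp d => some d
  | up d => some d
  | capcup d _ => some d
  | cusps d _ => some d
  | cross d _ => some d
  | _ => none

/-- the direction of the curve at the edge `nw`, or `none` if the curve does not meet this edge -/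
def nw : Tile → Option Bool
  | cup d => some d
  | rcusp d => some !d
  | down d => some d
  | capcup _ e => some e
  | cusps d _ => some !d
  | cross _ e => some e
  | _ => none

/-- the direction of the curve at the edge `se`, or `none` if the curve does not meet this edge -/
def se : Tile → Option Bool
  | cap d => some d
  | lcusp d => some d
  | down d => some d
  | capcup d _ => some d
  | cusps _ e => some e
  | cross _ e => some e
  | _ => none

/-- the direction of the curve at the edge `ne`, or `none` if the curve does not meet this edge -/
def ne : Tile → Option Bool
  | cup d => some d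
  | lcusp d => some !d
  | up d => some d
  | capcup _ e => some e
  | cusps _ e => some !e
  | cross d _ => some d
  | _ => none

/-- The number of arcs which leave the tile to the right (through `se` or `ne`). -/
def outs (t : Tile) : ℕ := t.se.toList.length + t.ne.toList.length

/-- The singularities in the tile, from left to right, if there are `h` strands below the tile. -/
def word : Tile → ℕ → List Ev
  | rcusp d, h => [⟨h, .rc d⟩]
  | lcusp d, h => [⟨h, .lc d⟩]
  | cusps d e, h => [⟨h, .rc d⟩, ⟨h, .lc e⟩]
  | cross d e, h => [⟨h, .cr d e⟩]
  | _, _ => []

end Tile

/-- An oriented Legendrian `n`-mosaic. The tile `tile i j`, for `i < n`, `j < n`, is the tile with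
coordinates `(i, j)` in the (unrotated) square grid, the first coordinate counts the columns from
left to right and the second one counts the rows from bottom to top. After the rotation by 45 degrees
(counterclockwise), `tile (i + 1) j` is the upper right neighbour of `tile i j`, and
`tile i (j + 1)` is its upper left neighbour. All other tiles are blank. The mosaic is suitably
connected, and the orientations of adjacent tiles fit together. -/
structure Mosaic (n : ℕ) where
  tile : ℕ → ℕ → Tile
  outside : ∀ i j, n ≤ i ∨ n ≤ j → tile i j = .blank
  boundary_sw : ∀ j, (tile 0 j).sw = none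
  boundary_se : ∀ i, (tile i 0).se = none
  ne_sw : ∀ i j, (tile i j).ne = (tile (i + 1) j).sw
  nw_se : ∀ i j, (tile i j).nw = (tile i (j + 1)).se

/-- The singularities in `k` tiles lying above each other, from bottom to top; the lowest tile is
`T i j`, and there are `h` strands below it. -/
def column (T : ℕ → ℕ → Tile) : ℕ → ℕ → ℕ → ℕ → List Ev
  | 0, _, _, _ => []
  | k + 1, i, j, h => (T i j).word h ++ column T k (i + 1) (j + 1) (h + (T i j).outs)

/-- The singularities of the front depicted by an `n`-mosaic. The `2 * n - 1` columns of the rotated
mosaic are read from left to right, and each column is read from bottom to top; the lowest tiles of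
the columns are `(0, n - 1)`, ..., `(0, 1)`, `(0, 0)`, `(1, 0)`, ..., `(n - 1, 0)`. (Tiles which do
not belong to the mosaic are blank.) -/
def Mosaic.word {n : ℕ} (M : Mosaic n) : List Ev :=
  (List.range (2 * n - 1)).flatMap fun c => column M.tile n (c - (n - 1)) (n - 1 - c) 0

end Pool.Agent.H77.Lm
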