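import Pool.Agent.H77.Lm.Word

set_option autoImplicit false

/-! # The fronts of the family -/

namespace Pool.Agent.H77.Lm

/-- the front with two cusps, and zigzags on the upper strand -/
def stdWord (ts : List Bool) : List Ev :=
  [⟨0, .lc false⟩] ++ ts.flatMap zig ++ [⟨0, .rc false⟩]

theorem zig_run (b : Bool) : Run [false, true] (zig b) [false, true] := by
  cases b
  · exact ⟨[false, true, false, true], ⟨[false, true], [], rfl, rfl, rfl⟩,
      [false, true], ⟨[false], [true], rfl, rfl, rfl⟩, rfl⟩
  · exact ⟨[false, true, false, true], ⟨[false], [true], rfl, rfl, rfl⟩,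
      [false, true], ⟨[false, true], [], rfl, rfl, rfl⟩, rfl⟩

theorem zigs_run (ts : List Bool) : Run [false, true] (ts.flatMap zig) [false, true] := by
  induction ts with
  | nil => rfl
  | cons b ts ih =>
    rw [List.flatMap_cons, run_append]
    exact ⟨_, zig_run b, ih⟩

theorem std_closed (ts : List Bool) : Run [] (stdWord ts) [] := by
  unfold stdWord
  rw [run_append, List.singleton_append]
  exact ⟨[false, true], ⟨[false, true], ⟨[], [], rfl, rfl, rfl⟩, zigs_run ts⟩,
    [], ⟨[], [], rfl, rfl, rfl⟩, rfl⟩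

def stdFront (ts : List Bool) : Front := ⟨stdWord ts, std_closed ts⟩

/-! ## The fronts are fronts of knots -/

/-- shape and height of a singularity -/
def bare (e : Ev) : ℕ × Fin 3 := (e.ht, e.kind.shape)

theorem bare_lc {e : Ev} {i : ℕ} (h : bare e = (i, 0)) : ∃ d, e = ⟨i, .lc d⟩ := by
  obtain ⟨a, k⟩ := e
  cases k <;> simp_all [bare, Kind.shape]

theorem bare_rc {e : Ev} {i : ℕ} (h : bare e = (i, 1)) : ∃ d, e = ⟨i, .rc d⟩ := by
  obtain ⟨a, k⟩ := e
  cases k <;> simp_all [bare, Kind.shape]

/-- orientation of a singularity -/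
def ori (d : Bool) (e : Ev) : Ev := if d then ⟨e.ht, e.kind.rev⟩ else e

theorem step_eq {s t : List Bool} {e : Ev} (h : Step s e t) :
    s = s.take e.ht ++ e.kind.inp ++ s.drop (e.ht + e.kind.inp.length) ∧
      t = s.take e.ht ++ e.kind.out ++ s.drop (e.ht + e.kind.inp.length) := by
  obtain ⟨p, q, hp, rfl, rfl⟩ := h
  have h1 : (p ++ e.kind.inp ++ q).take e.ht = p := by
    rw [← hp]; simp
  have h2 : (p ++ e.kind.inp ++ q).drop (e.ht + e.kind.inp.length) = q := by
    rw [← hp, ← List.length_append]; simp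
  rw [h1, h2]
  exact ⟨rfl, rfl⟩

theorem zig_unique (b d : Bool) (w : List Ev) (t : List Bool)
    (h : w.map bare = (zig b).map bare) (hr : Run [d, !d] w t) :
    w = (zig b).map (ori d) ∧ t = [d, !d] := by
  cases b
  · simp only [zig, List.map_cons, List.map_nil] at h
    obtain ⟨e1, w1, rfl, h1, h2⟩ := List.map_eq_cons_iff.mp h
    obtain ⟨e2, w2, rfl, h3, h4⟩ := List.map_eq_cons_iff.mp h2
    obtain rfl := List.map_eq_nil_iff.mp h4
    obtain ⟨d1, rfl⟩ := bare_lc h1
    obtain ⟨d2, rfl⟩ := bare_rc h3
    obtain ⟨r, hr1, r', hr2, rfl⟩ := hr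
    obtain ⟨-, rfl⟩ := step_eq hr1
    obtain ⟨h5, rfl⟩ := step_eq hr2
    cases d <;> cases d1 <;> cases d2 <;> simp_all [zig, ori, Kind.rev, Kind.inp, Kind.out]
  · simp only [zig, List.map_cons, List.map_nil] at h
    obtain ⟨e1, w1, rfl, h1, h2⟩ := List.map_eq_cons_iff.mp h
    obtain ⟨e2, w2, rfl, h3, h4⟩ := List.map_eq_cons_iff.mp h2
    obtain rfl := List.map_eq_nil_iff.mp h4
    obtain ⟨d1, rfl⟩ := bare_lc h1
    obtain ⟨d2, rfl⟩ := bare_rc h3
    obtain ⟨r, hr1, r', hr2, rfl⟩ := hr
    obtain ⟨-, rfl⟩ := step_eq hr1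
    obtain ⟨h5, rfl⟩ := step_eq hr2
    cases d <;> cases d1 <;> cases d2 <;> simp_all [zig, ori, Kind.rev, Kind.inp, Kind.out]

theorem zigs_unique (ts : List Bool) (d : Bool) (w : List Ev) (t : List Bool)
    (h : w.map bare = (ts.flatMap zig).map bare) (hr : Run [d, !d] w t) :
    w = (ts.flatMap zig).map (ori d) ∧ t = [d, !d] := by
  induction ts generalizing w with
  | nil =>
    simp only [List.flatMap_nil, List.map_nil, List.map_eq_nil_iff] at h
    subst h
    exact ⟨rfl, hr.symm⟩
  | cons b ts ih =>
    rw [List.flatMap_cons, List.map_append] at h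
    obtain ⟨u, v, rfl, h1, h2⟩ := List.map_eq_append_iff.mp h
    obtain ⟨r, hu, hv⟩ := run_append.mp hr
    obtain ⟨e1, rfl⟩ := zig_unique b d u r h1 hu
    obtain ⟨e2, e3⟩ := ih v h2 hv
    rw [e1, e2, List.flatMap_cons, List.map_append]
    exact ⟨rfl, e3⟩

theorem std_isKnot (ts : List Bool) : (stdFront ts).IsKnot := by
  refine ⟨by simp [stdFront, stdWord], ?_⟩
  rintro ⟨w, hw⟩ h
  simp only [stdFront, stdWord] at h ⊢
  change w.map bare = List.map bare _ at h
  rw [List.map_append, List.map_append] at h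
  obtain ⟨u, v, rfl, h1, h2⟩ := List.map_eq_append_iff.mp h
  obtain ⟨a, b, rfl, h3, h4⟩ := List.map_eq_append_iff.mp h1
  obtain ⟨r, hu, hv⟩ := run_append.mp hw
  obtain ⟨r', ha, hb⟩ := run_append.mp hu
  obtain ⟨e, a', rfl, h5, h6⟩ := List.map_eq_cons_iff.mp h3
  obtain rfl := List.map_eq_nil_iff.mp h6
  obtain ⟨f, v', rfl, h7, h8⟩ := List.map_eq_cons_iff.mp h2
  obtain rfl := List.map_eq_nil_iff.mp h8
  obtain ⟨d, rfl⟩ := bare_lc h5
  obtain ⟨c, rfl⟩ := bare_rc h7
  obtain ⟨x, hx, rfl⟩ := ha
  obtain ⟨-, rfl⟩ := step_eq hx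
  obtain ⟨rfl, rfl⟩ := zigs_unique ts d b _ h4 hb
  obtain ⟨y, hy, -⟩ := hv
  obtain ⟨h9, -⟩ := step_eq hy
  simp only [Kind.inp, List.take_zero, List.nil_append, List.length_cons, List.length_nil,
    Nat.zero_add, List.cons_append] at h9
  obtain ⟨rfl, -⟩ := List.cons.inj h9
  cases d
  · left
    have : ori false = id := by
      funext e
      simp [ori]
    rw [this, List.map_id]
  · right
    simp [ori, Kind.rev]

/-- the class of the standard front -/
def stdKnot (ts : List Bool) : Knot := ⟨(stdFront ts).link, stdFront ts, std_isKnot ts, rfl⟩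

theorem std_stab (u v : List Bool) : IsStabilization (stdKnot (u ++ v)) (stdKnot (u ++ false :: v)) := by
  refine ⟨stdFront (u ++ v), stdFront (u ++ false :: v), [⟨0, .lc false⟩] ++ u.flatMap zig,
    v.flatMap zig ++ [⟨0, .rc false⟩], zig false, rfl, rfl, Zigzag.above 1 true, ?_, ?_⟩
  · simp [stdFront, stdWord, List.flatMap_append]
  · simp [stdFront, stdWord, List.flatMap_append, List.flatMap_cons]

theorem std_tot (a b : ℤ) (ts : List Bool) :
    linkTot a b (stdKnot ts).1 = a + b + 2 * a * ts.count true + 2 * b * ts.count false := by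
  have h : ∀ l : List Bool, tot a b (l.flatMap zig) = 2 * a * l.count true + 2 * b * l.count false := by
    intro l
    induction l with
    | nil => simp [tot]
    | cons x l ih =>
      rw [List.flatMap_cons, tot_append, ih]
      cases x <;> simp [zig, tot, wgt] <;> ring
  show tot a b (stdWord ts) = _
  rw [stdWord, tot_append, tot_append, h]
  simp [tot, wgt]
  ring

theorem std_mosaic {N : ℕ} {Y : ℕ → ℕ} (A : Adm N Y) : HasMosaic (N + 1) (stdKnot (zigs N Y)) :=
  ⟨pathMosaic A, CEq.link (path_word A) _ (std_closed _)⟩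

/-! ## All standard fronts have mosaics -/

/-- a height function with the zigzags `ts` -/
def slowY (ts : List Bool) (c : ℕ) : ℕ :=
  if h : 4 ≤ c ∧ (c - 4) / 4 < ts.length then
    (if (c - 4) % 4 = 0 then 2 * ts.length + 6
      else if ts[(c - 4) / 4]'h.2 then 2 * ts.length + 6 - (4 - (c - 4) % 4)
      else 2 * ts.length + 6 + (4 - (c - 4) % 4))
  else 2 * ts.length + 6 + c % 2

theorem slow_adm (ts : List Bool) : Adm (2 * ts.length + 6) (slowY ts) where
  pos := by omega
  par := by
    intro c hc
    unfold slowY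
    split_ifs <;> omega
  zero := by unfold slowY; split_ifs <;> omega
  last := by unfold slowY; split_ifs <;> omega
  low := by
    intro c h1 h2
    unfold slowY
    split_ifs <;> omega
  high := by
    intro c h1 h2
    unfold slowY
    split_ifs <;> omega

theorem flatMap_range_add {α : Type*} (f : ℕ → List α) (a b : ℕ) :
    (List.range (a + b)).flatMap f = (List.range a).flatMap f ++
      (List.range b).flatMap fun c => f (a + c) := by
  induction b with
  | zero => simp
  | succ b ih =>
    rw [← add_assoc, List.range_succ, List.flatMap_append, ih, List.range_succ, List.flatMap_append]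
    simp

theorem slow_zigs (ts : List Bool) : zigs (2 * ts.length + 6) (slowY ts) = ts := by
  unfold zigs
  set f : ℕ → List Bool := fun c =>
    List.replicate ((max (slowY ts c) (slowY ts (c + 1)) - min (slowY ts c) (slowY ts (c + 1))) / 2)
      (decide (slowY ts (c + 1) < slowY ts c)) with hf
  have hnil : ∀ c, (slowY ts c + 1 = slowY ts (c + 1) ∨ slowY ts (c + 1) + 1 = slowY ts c) →
      f c = [] := by
    intro c h
    simp only [hf]
    rw [show (max (slowY ts c) (slowY ts (c + 1)) - min (slowY ts c) (slowY ts (c + 1))) / 2 = 0 by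
      omega]
    rfl
  have hout : ∀ c, (c < 4 ∨ 4 + 4 * ts.length ≤ c) → f c = [] := by
    intro c h
    apply hnil
    unfold slowY
    split_ifs <;> omega
  have hmid : ∀ k (hk : k < ts.length), (List.range 4).flatMap (fun r => f (4 + 4 * k + r)) = [ts[k]] := by
    intro k hk
    have e0 : slowY ts (4 + 4 * k) = 2 * ts.length + 6 := by
      unfold slowY
      rw [dif_pos (by omega), if_pos (by omega)]
    have e4 : slowY ts (4 + 4 * k + 4) = 2 * ts.length + 6 := by
      unfold slowY
      split_ifs <;> omega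
    have er : ∀ r, 1 ≤ r → r < 4 → slowY ts (4 + 4 * k + r) =
        if ts[k] then 2 * ts.length + 6 - (4 - r) else 2 * ts.length + 6 + (4 - r) := by
      intro r h1 h2
      unfold slowY
      rw [dif_pos (by omega), if_neg (by omega)]
      have hk' : (4 + 4 * k + r - 4) / 4 = k := by omega
      have hr' : (4 + 4 * k + r - 4) % 4 = r := by omega
      simp only [hk', hr']
    have h1 := er 1 (by omega) (by omega)
    have h2 := er 2 (by omega) (by omega)
    have h3 := er 3 (by omega) (by omega)
    have f1 : f (4 + 4 * k + 1) = [] := by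
      apply hnil
      rw [h1, show 4 + 4 * k + 1 + 1 = 4 + 4 * k + 2 by ring, h2]
      split_ifs <;> omega
    have f2 : f (4 + 4 * k + 2) = [] := by
      apply hnil
      rw [h2, show 4 + 4 * k + 2 + 1 = 4 + 4 * k + 3 by ring, h3]
      split_ifs <;> omega
    have f3 : f (4 + 4 * k + 3) = [] := by
      apply hnil
      rw [h3, show 4 + 4 * k + 3 + 1 = 4 + 4 * k + 4 by ring, e4]
      split_ifs <;> omega
    have f0 : f (4 + 4 * k + 0) = [ts[k]] := by
      simp only [hf, Nat.add_zero]
      rw [h1, e0]
      cases ts[k]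
      · rw [if_neg (by simp), decide_eq_false (by omega), show
          (max (2 * ts.length + 6) (2 * ts.length + 6 + (4 - 1)) -
            min (2 * ts.length + 6) (2 * ts.length + 6 + (4 - 1))) / 2 = 1 by omega]
        rfl
      · rw [if_pos rfl, decide_eq_true (by omega), show
          (max (2 * ts.length + 6) (2 * ts.length + 6 - (4 - 1)) -
            min (2 * ts.length + 6) (2 * ts.length + 6 - (4 - 1))) / 2 = 1 by omega]
        rfl
    show f (4 + 4 * k + 0) ++ (f (4 + 4 * k + 1) ++ (f (4 + 4 * k + 2) ++ (f (4 + 4 * k + 3) ++ []))) = _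
    rw [f0, f1, f2, f3]
    rfl
  have htake : ∀ k, k ≤ ts.length →
      (List.range (4 * k)).flatMap (fun c => f (4 + c)) = ts.take k := by
    intro k
    induction k with
    | zero => intro _; rfl
    | succ k ih =>
      intro hk
      rw [show 4 * (k + 1) = 4 * k + 4 by ring, flatMap_range_add, ih (by omega)]
      have := hmid k (by omega)
      simp only [add_assoc] at this ⊢
      rw [this, List.take_succ_eq_append_getElem (by omega)]
  rw [show 2 * (2 * ts.length + 6) - 1 = 4 + 4 * ts.length + 7 by omega, flatMap_range_add,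
    flatMap_range_add, htake ts.length le_rfl, List.take_length]
  have h1 : (List.range 4).flatMap f = [] := by
    rw [List.flatMap_eq_nil_iff]
    intro c hc
    exact hout c (Or.inl (List.mem_range.mp hc))
  have h2 : ((List.range 7).flatMap fun c => f (4 + 4 * ts.length + c)) = [] := by
    rw [List.flatMap_eq_nil_iff]
    intro c _
    exact hout _ (Or.inr (by omega))
  rw [h1, h2]
  simp

theorem std_hasMosaic (ts : List Bool) : ∃ n, HasMosaic n (stdKnot ts) := by
  have := std_mosaic (slow_adm ts)
  rw [slow_zigs] at this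
  exact ⟨_, this⟩

end Pool.Agent.H77.Lm
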