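import Pool.Agent.H77.Lm.Comm

set_option autoImplicit false

/-! # The mosaic of a height function -/

namespace Pool.Agent.H77.Lm

/-! ## Stacks of tiles -/

/-- `k` tiles on top of each other, the tile with height `y` is `g y` -/
def stk (g : ℕ → Tile) : ℕ → ℕ → ℕ → List Ev
  | 0, _, _ => []
  | k + 1, y, h => (g y).word h ++ stk g k (y + 2) (h + (g y).outs)

theorem column_eq_stk (T : ℕ → ℕ → Tile) (g : ℕ → Tile) (k i j y h : ℕ)
    (H : ∀ t < k, T (i + t) (j + t) = g (y + 2 * t)) : column T k i j h = stk g k y h := by
  induction k generalizing i j y h with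
  | zero => rfl
  | succ k ih =>
    have h0 := H 0 (by omega)
    simp only [Nat.add_zero, Nat.mul_zero] at h0
    rw [column, stk, h0]
    congr 1
    apply ih
    intro t ht
    have := H (t + 1) (by omega)
    rw [show i + 1 + t = i + (t + 1) by ring, show j + 1 + t = j + (t + 1) by ring, this]
    congr 1
    ring

/-- number of strands leaving a stack -/
def stkOuts (g : ℕ → Tile) : ℕ → ℕ → ℕ
  | 0, _ => 0
  | k + 1, y => (g y).outs + stkOuts g k (y + 2)

theorem stk_add (g : ℕ → Tile) (k l y h : ℕ) :
    stk g (k + l) y h = stk g k y h ++ stk g l (y + 2 * k) (h + stkOuts g k y) := by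
  induction k generalizing y h with
  | zero => simp [stk, stkOuts]
  | succ k ih =>
    rw [show k + 1 + l = (k + l) + 1 by ring, stk, ih, stk, stkOuts]
    rw [List.append_assoc, show y + 2 + 2 * k = y + 2 * (k + 1) by ring,
      show h + (g y).outs + stkOuts g k (y + 2) = h + ((g y).outs + stkOuts g k (y + 2)) by ring]

/-- the tile with an optional right cusp and an optional left cusp -/
def cuspTile (d e : Bool) : Bool → Bool → Tile
  | false, false => .blank
  | true, false => .rcusp d
  | false, true => .lcusp e
  | true, true => .cusps d e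

/-- number of tiles in the stack with property `P` -/
def cnt (P : ℕ → Bool) : ℕ → ℕ → ℕ
  | 0, _ => 0
  | k + 1, y => (if P y then 1 else 0) + cnt P k (y + 2)

theorem stk_cusps (d e : Bool) (P Q : ℕ → Bool) (g : ℕ → Tile) (k y h : ℕ)
    (hg : ∀ t < k, g (y + 2 * t) = cuspTile d e (P (y + 2 * t)) (Q (y + 2 * t))) :
    CEq (stk g k y h) (List.replicate (cnt P k y) ⟨h, .rc d⟩ ++ lefts e h (cnt Q k y)) := by
  induction k generalizing y h with
  | zero => exact CEq.refl _
  | succ k ih =>
    have h0 := hg 0 (by omega)
    simp only [Nat.mul_zero, Nat.add_zero] at h0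
    have ih' := fun h => ih (y + 2) h (fun t ht => by
      have := hg (t + 1) (by omega)
      rw [show y + 2 * (t + 1) = y + 2 + 2 * t by ring] at this
      exact this)
    have hpass : ∀ q, CEq (⟨h, .lc e⟩ :: List.replicate q ⟨h + 2, .rc d⟩)
        (List.replicate q ⟨h, .rc d⟩ ++ [⟨h, .lc e⟩]) := by
      intro q
      have := pass h (.lc e) (List.replicate q ⟨h, .rc d⟩) (by simp +contextual)
      simpa [Kind.out, Kind.inp, raise] using this
    rw [stk, h0, cnt, cnt]
    cases hP : P y <;> cases hQ : Q y
    · simpa [cuspTile, Tile.word, Tile.outs, Tile.se, Tile.ne] using ih' h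
    · have h1 := CEq.append_left [⟨h, .lc e⟩] (ih' (h + 2))
      have h2 := CEq.append_right (lefts e (h + 2) (cnt Q k (y + 2))) (hpass (cnt P k (y + 2)))
      have h3 := h1.trans (by simpa using h2)
      simpa [cuspTile, Tile.word, Tile.outs, Tile.se, Tile.ne, add_comm 1, lefts] using h3
    · have h1 := CEq.append_left [⟨h, .rc d⟩] (ih' h)
      simpa [cuspTile, Tile.word, Tile.outs, Tile.se, Tile.ne, add_comm 1,
        List.replicate_succ] using h1
    · have h1 := CEq.append_left [⟨h, .lc e⟩] (ih' (h + 2))
      have h2 := CEq.append_right (lefts e (h + 2) (cnt Q k (y + 2))) (hpass (cnt P k (y + 2)))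
      have h3 := CEq.append_left [⟨h, .rc d⟩] (h1.trans (by simpa using h2))
      simpa [cuspTile, Tile.word, Tile.outs, Tile.se, Tile.ne, add_comm 1, lefts,
        List.replicate_succ] using h3

theorem stkOuts_cusps (d e : Bool) (P Q : ℕ → Bool) (g : ℕ → Tile) (k y : ℕ)
    (hg : ∀ t < k, g (y + 2 * t) = cuspTile d e (P (y + 2 * t)) (Q (y + 2 * t))) :
    stkOuts g k y = 2 * cnt Q k y := by
  induction k generalizing y with
  | zero => rfl
  | succ k ih =>
    have h0 := hg 0 (by omega)
    simp only [Nat.mul_zero, Nat.add_zero] at h0
    have ih' := ih (y + 2) (fun t ht => by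
      have := hg (t + 1) (by omega)
      rw [show y + 2 * (t + 1) = y + 2 + 2 * t by ring] at this
      exact this)
    rw [stkOuts, ih', h0, cnt]
    cases hP : P y <;> cases hQ : Q y <;>
      simp [cuspTile, Tile.outs, Tile.se, Tile.ne, mul_add]

theorem cnt_range (lo hi k y : ℕ) (h1 : lo % 2 = y % 2) (h2 : hi % 2 = y % 2) (P : ℕ → Bool)
    (hP : ∀ t < k, P (y + 2 * t) = decide (lo ≤ y + 2 * t ∧ y + 2 * t < hi)) :
    cnt P k y = (min hi (y + 2 * k) - max lo y) / 2 := by
  induction k generalizing y with
  | zero => simp [cnt]
  | succ k ih =>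
    have h0 := hP 0 (by omega)
    simp only [Nat.mul_zero, Nat.add_zero] at h0
    rw [cnt, ih (y + 2) (by omega) (by omega) (fun t ht => by
      have := hP (t + 1) (by omega)
      rw [show y + 2 * (t + 1) = y + 2 + 2 * t by ring] at this
      exact this), h0]
    by_cases h : lo ≤ y ∧ y < hi
    · simp only [h, and_self, decide_true, if_true]
      omega
    · simp only [h, decide_false, Bool.false_eq_true, if_false]
      omega

/-! ## The tiles -/

/-- the tile of height `y` in a column, if the curve passes the previous column, this column and the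
next column at the heights `L`, `C`, `R` -/
def gT (L C R y : ℕ) : Tile :=
  if y = C then
    (if L < C then (if C < R then .up true else .cap true)
      else (if C < R then .cup true else .down true))
  else cuspTile (decide (L < C)) (decide (R < C))
    (decide (min L C < y ∧ y < max L C)) (decide (min C R < y ∧ y < max C R))

section
variable {L C R y : ℕ} (hL : L % 2 ≠ C % 2) (hR : R % 2 ≠ C % 2) (hy : y % 2 = C % 2)
include hL hR hy

theorem gT_sw : (gT L C R y).sw =
    if min L C < y ∧ y ≤ max L C then some (decide (L < C)) else none := by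
  unfold gT
  by_cases h1 : y = C
  · subst h1
    rw [if_pos rfl]
    by_cases h2 : L < y <;> by_cases h3 : y < R
    · rw [if_pos h2, if_pos h3]
      simp only [Tile.sw]
      rw [if_pos (by omega), decide_eq_true h2]
    · rw [if_pos h2, if_neg h3]
      simp only [Tile.sw]
      rw [if_pos (by omega), decide_eq_true h2]
    · rw [if_neg h2, if_pos h3]
      simp only [Tile.sw]
      rw [if_neg (by omega)]
    · rw [if_neg h2, if_neg h3]
      simp only [Tile.sw]
      rw [if_neg (by omega)]
  · rw [if_neg h1]
    by_cases h4 : min L C < y ∧ y < max L C <;> by_cases h5 : min C R < y ∧ y < max C R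
    · rw [decide_eq_true h4, decide_eq_true h5]
      simp only [cuspTile, Tile.sw]
      rw [if_pos (by omega)]
    · rw [decide_eq_true h4, decide_eq_false h5]
      simp only [cuspTile, Tile.sw]
      rw [if_pos (by omega)]
    · rw [decide_eq_false h4, decide_eq_true h5]
      simp only [cuspTile, Tile.sw]
      rw [if_neg (by omega)]
    · rw [decide_eq_false h4, decide_eq_false h5]
      simp only [cuspTile, Tile.sw]
      rw [if_neg (by omega)]

theorem gT_nw : (gT L C R y).nw =
    if min L C ≤ y ∧ y < max L C then some (decide (C < L)) else none := by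
  unfold gT
  have e : (!decide (L < C)) = decide (C < L) := by
    by_cases h : C < L
    · rw [decide_eq_true h, decide_eq_false (by omega)]; rfl
    · rw [decide_eq_false h, decide_eq_true (by omega)]; rfl
  by_cases h1 : y = C
  · subst h1
    rw [if_pos rfl]
    by_cases h2 : L < y <;> by_cases h3 : y < R
    · rw [if_pos h2, if_pos h3]
      simp only [Tile.nw]
      rw [if_neg (by omega)]
    · rw [if_pos h2, if_neg h3]
      simp only [Tile.nw]
      rw [if_neg (by omega)]
    · rw [if_neg h2, if_pos h3]
      simp only [Tile.nw]
      rw [if_pos (by omega), decide_eq_true (by omega : y < L)]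
    · rw [if_neg h2, if_neg h3]
      simp only [Tile.nw]
      rw [if_pos (by omega), decide_eq_true (by omega : y < L)]
  · rw [if_neg h1]
    by_cases h4 : min L C < y ∧ y < max L C <;> by_cases h5 : min C R < y ∧ y < max C R
    · rw [decide_eq_true h4, decide_eq_true h5]
      simp only [cuspTile, Tile.nw]
      rw [if_pos (by omega), e]
    · rw [decide_eq_true h4, decide_eq_false h5]
      simp only [cuspTile, Tile.nw]
      rw [if_pos (by omega), e]
    · rw [decide_eq_false h4, decide_eq_true h5]
      simp only [cuspTile, Tile.nw]
      rw [if_neg (by omega)]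
    · rw [decide_eq_false h4, decide_eq_false h5]
      simp only [cuspTile, Tile.nw]
      rw [if_neg (by omega)]

theorem gT_se : (gT L C R y).se =
    if min C R < y ∧ y ≤ max C R then some (decide (R < C)) else none := by
  unfold gT
  by_cases h1 : y = C
  · subst h1
    rw [if_pos rfl]
    by_cases h2 : L < y <;> by_cases h3 : y < R
    · rw [if_pos h2, if_pos h3]
      simp only [Tile.se]
      rw [if_neg (by omega)]
    · rw [if_pos h2, if_neg h3]
      simp only [Tile.se]
      rw [if_pos (by omega), decide_eq_true (by omega : R < y)]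
    · rw [if_neg h2, if_pos h3]
      simp only [Tile.se]
      rw [if_neg (by omega)]
    · rw [if_neg h2, if_neg h3]
      simp only [Tile.se]
      rw [if_pos (by omega), decide_eq_true (by omega : R < y)]
  · rw [if_neg h1]
    by_cases h4 : min L C < y ∧ y < max L C <;> by_cases h5 : min C R < y ∧ y < max C R
    · rw [decide_eq_true h4, decide_eq_true h5]
      simp only [cuspTile, Tile.se]
      rw [if_pos (by omega)]
    · rw [decide_eq_true h4, decide_eq_false h5]
      simp only [cuspTile, Tile.se]
      rw [if_neg (by omega)]
    · rw [decide_eq_false h4, decide_eq_true h5]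
      simp only [cuspTile, Tile.se]
      rw [if_pos (by omega)]
    · rw [decide_eq_false h4, decide_eq_false h5]
      simp only [cuspTile, Tile.se]
      rw [if_neg (by omega)]

theorem gT_ne : (gT L C R y).ne =
    if min C R ≤ y ∧ y < max C R then some (decide (C < R)) else none := by
  unfold gT
  have e : (!decide (R < C)) = decide (C < R) := by
    by_cases h : C < R
    · rw [decide_eq_true h, decide_eq_false (by omega)]; rfl
    · rw [decide_eq_false h, decide_eq_true (by omega)]; rfl
  by_cases h1 : y = C
  · subst h1
    rw [if_pos rfl]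
    by_cases h2 : L < y <;> by_cases h3 : y < R
    · rw [if_pos h2, if_pos h3]
      simp only [Tile.ne]
      rw [if_pos (by omega), decide_eq_true h3]
    · rw [if_pos h2, if_neg h3]
      simp only [Tile.ne]
      rw [if_neg (by omega)]
    · rw [if_neg h2, if_pos h3]
      simp only [Tile.ne]
      rw [if_pos (by omega), decide_eq_true h3]
    · rw [if_neg h2, if_neg h3]
      simp only [Tile.ne]
      rw [if_neg (by omega)]
  · rw [if_neg h1]
    by_cases h4 : min L C < y ∧ y < max L C <;> by_cases h5 : min C R < y ∧ y < max C R
    · rw [decide_eq_true h4, decide_eq_true h5]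
      simp only [cuspTile, Tile.ne]
      rw [if_pos (by omega), e]
    · rw [decide_eq_true h4, decide_eq_false h5]
      simp only [cuspTile, Tile.ne]
      rw [if_neg (by omega)]
    · rw [decide_eq_false h4, decide_eq_true h5]
      simp only [cuspTile, Tile.ne]
      rw [if_pos (by omega), e]
    · rw [decide_eq_false h4, decide_eq_false h5]
      simp only [cuspTile, Tile.ne]
      rw [if_neg (by omega)]

end

end Pool.Agent.H77.Lm
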