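import Pool.Agent.H77.Lm.Path

set_option autoImplicit false

/-! # The mosaic of a height function -/

namespace Pool.Agent.H77.Lm

/-- the height function `Y` is admissible for an `(N + 1)`-mosaic -/
structure Adm (N : ℕ) (Y : ℕ → ℕ) : Prop where
  pos : 1 ≤ N
  par : ∀ c, c ≤ 2 * N → Y c % 2 = (c + N) % 2
  zero : Y 0 = N
  last : Y (2 * N) = N
  low : ∀ c, 1 ≤ c → c < 2 * N → N + 2 ≤ Y c + c ∧ c + 2 ≤ Y c + N
  high : ∀ c, 1 ≤ c → c < 2 * N → Y c ≤ N + c ∧ Y c + c ≤ 3 * N

/-- the tiles of the mosaic: the return path along the lower boundary, and the curve with height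
function `Y` -/
def ptile (N : ℕ) (Y : ℕ → ℕ) (i j : ℕ) : Tile :=
  if N < i ∨ N < j then .blank
  else if i = 0 then (if j = 0 then .cup false else if j = N then .lcusp false else .down false)
  else if j = 0 then (if i = N then .rcusp false else .up false)
  else gT (Y (i + N - j - 1)) (Y (i + N - j)) (Y (i + N - j + 1)) (i + j)

section
variable {N : ℕ} {Y : ℕ → ℕ} (A : Adm N Y)
include A

omit A in
theorem ptile_inner {i j : ℕ} (hi : 1 ≤ i) (hi' : i ≤ N) (hj : 1 ≤ j) (hj' : j ≤ N) (c : ℕ)
    (hc : c + 1 + j = i + N) : ptile N Y i j = gT (Y c) (Y (c + 1)) (Y (c + 2)) (i + j) := by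
  unfold ptile
  rw [if_neg (by omega), if_neg (by omega), if_neg (by omega)]
  rw [show i + N - j - 1 = c by omega, show i + N - j = c + 1 by omega]

theorem inner_par {i j c : ℕ} (hi' : i ≤ N) (hj : 1 ≤ j)
    (hc : c + 1 + j = i + N) : Y c % 2 ≠ Y (c + 1) % 2 ∧ Y (c + 2) % 2 ≠ Y (c + 1) % 2 ∧
      (i + j) % 2 = Y (c + 1) % 2 := by
  have h0 := A.par c (by omega)
  have h1 := A.par (c + 1) (by omega)
  have h2 := A.par (c + 2) (by omega)
  omega

omit A in
theorem ptile_out {i j : ℕ} (h : N < i ∨ N < j) : ptile N Y i j = .blank := by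
  unfold ptile; rw [if_pos h]

theorem ptile_ne_sw (i j : ℕ) : (ptile N Y i j).ne = (ptile N Y (i + 1) j).sw := by
  have hN := A.pos
  rcases Nat.lt_or_ge N j with hj | hj
  · rw [ptile_out (Or.inr hj), ptile_out (Or.inr hj)]; rfl
  rcases Nat.lt_or_ge N i with hi | hi
  · rw [ptile_out (Or.inl hi), ptile_out (Or.inl (by omega))]; rfl
  rcases Nat.eq_or_lt_of_le hi with rfl | hi
  · -- the last tile of a row
    rw [ptile_out (i := i + 1) (Or.inl (by omega))]
    rcases Nat.eq_zero_or_pos j with rfl | hj0
    · unfold ptile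
      rw [if_neg (by omega), if_neg (by omega), if_pos rfl, if_pos rfl]; rfl
    · obtain ⟨c, hc⟩ : ∃ c, c + 1 + j = i + i := ⟨i + i - 1 - j, by omega⟩
      obtain ⟨p1, p2, p3⟩ := inner_par A hi hj0 hc
      rw [ptile_inner hN le_rfl hj0 hj c hc, gT_ne p1 p2 p3]
      rw [if_neg]; · rfl
      have h1 := A.high (c + 1) (by omega) (by omega)
      have h2 : Y (c + 2) ≤ i + j := by
        rcases Nat.lt_or_ge (c + 2) (2 * i) with h | h
        · have := A.high (c + 2) (by omega) h
          omega
        · rw [show c + 2 = 2 * i by omega, A.last]; omega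
      omega
  rcases Nat.eq_zero_or_pos i with rfl | hi0
  · rcases Nat.eq_zero_or_pos j with rfl | hj0
    · unfold ptile
      rw [if_neg (by omega), if_pos rfl, if_pos rfl, if_neg (by omega), if_neg (by omega), if_pos rfl]
      split_ifs <;> rfl
    · obtain ⟨c, hc⟩ : ∃ c, c + 1 + j = 0 + 1 + N := ⟨N - j, by omega⟩
      obtain ⟨p1, p2, p3⟩ := inner_par A (i := 0 + 1) (by omega) hj0 hc
      rw [ptile_inner (by omega) (by omega) hj0 hj c hc, gT_sw p1 p2 p3]
      unfold ptile
      rw [if_neg (by omega), if_pos rfl, if_neg (by omega)]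
      by_cases h : j = N
      · obtain rfl : c = 0 := by omega
        have h1 := A.low 1 (by omega) (by omega)
        have h2 := A.high 1 (by omega) (by omega)
        have h3 := A.zero
        simp only [Nat.zero_add]
        rw [if_pos h, if_pos (by omega)]
        simp only [Tile.ne, Bool.not_false]
        rw [decide_eq_true (by omega)]
      · rw [if_neg h, if_neg]; · rfl
        have h1 := A.low c (by omega) (by omega)
        have h2 := A.low (c + 1) (by omega) (by omega)
        omega
  · rcases Nat.eq_zero_or_pos j with rfl | hj0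
    · unfold ptile
      rw [if_neg (by omega), if_neg (by omega), if_pos rfl, if_neg (by omega), if_neg (by omega),
        if_neg (by omega), if_pos rfl]
      split_ifs <;> rfl
    · obtain ⟨c, hc⟩ : ∃ c, c + 1 + j = i + N := ⟨i + N - j - 1, by omega⟩
      obtain ⟨p1, p2, p3⟩ := inner_par A (by omega) hj0 hc
      have hc' : c + 1 + 1 + j = i + 1 + N := by omega
      obtain ⟨q1, q2, q3⟩ := inner_par A (by omega) hj0 hc'
      rw [ptile_inner hi0 (by omega) hj0 hj c hc, gT_ne p1 p2 p3,
        ptile_inner (by omega) (by omega) hj0 hj (c + 1) hc', gT_sw q1 q2 q3]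
      by_cases h : min (Y (c + 1)) (Y (c + 2)) ≤ i + j ∧ i + j < max (Y (c + 1)) (Y (c + 2))
      · rw [if_pos h, if_pos (by rw [show c + 1 + 1 = c + 2 by ring]; omega)]
      · rw [if_neg h, if_neg (by rw [show c + 1 + 1 = c + 2 by ring]; omega)]

theorem ptile_nw_se (i j : ℕ) : (ptile N Y i j).nw = (ptile N Y i (j + 1)).se := by
  have hN := A.pos
  rcases Nat.lt_or_ge N i with hi | hi
  · rw [ptile_out (Or.inl hi), ptile_out (Or.inl hi)]; rfl
  rcases Nat.lt_or_ge N j with hj | hj
  · rw [ptile_out (Or.inr hj), ptile_out (Or.inr (by omega))]; rfl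
  rcases Nat.eq_or_lt_of_le hj with rfl | hj
  · rw [ptile_out (j := j + 1) (Or.inr (by omega))]
    rcases Nat.eq_zero_or_pos i with rfl | hi0
    · unfold ptile
      rw [if_neg (by omega), if_pos rfl, if_neg (by omega), if_pos rfl]; rfl
    · obtain ⟨c, hc⟩ : ∃ c, c + 1 + j = i + j := ⟨i - 1, by omega⟩
      obtain ⟨p1, p2, p3⟩ := inner_par A hi hN hc
      rw [ptile_inner hi0 hi hN le_rfl c hc, gT_nw p1 p2 p3]
      rw [if_neg]; · rfl
      have h1 := A.high (c + 1) (by omega) (by omega)
      have h2 : Y c ≤ i + j := by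
        rcases Nat.eq_zero_or_pos c with rfl | h
        · rw [A.zero]; omega
        · have := A.high c (by omega) (by omega)
          omega
      omega
  rcases Nat.eq_zero_or_pos j with rfl | hj0
  · rcases Nat.eq_zero_or_pos i with rfl | hi0
    · unfold ptile
      rw [if_neg (by omega), if_pos rfl, if_pos rfl, if_neg (by omega), if_pos rfl, if_neg (by omega)]
      split_ifs <;> rfl
    · obtain ⟨c, hc⟩ : ∃ c, c + 1 + (0 + 1) = i + N := ⟨i + N - 2, by omega⟩
      obtain ⟨p1, p2, p3⟩ := inner_par A (by omega) (j := 0 + 1) (by omega) hc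
      rw [ptile_inner hi0 (by omega) (by omega) (by omega) c hc, gT_se p1 p2 p3]
      unfold ptile
      rw [if_neg (by omega), if_neg (by omega), if_pos rfl]
      by_cases h : i = N
      · have e : c + 2 = 2 * N := by omega
        have h1 := A.low (c + 1) (by omega) (by omega)
        have h2 := A.high (c + 1) (by omega) (by omega)
        rw [if_pos h, e, A.last, if_pos (by omega)]
        simp only [Tile.nw, Bool.not_false]
        rw [decide_eq_true (by omega)]
      · rw [if_neg h, if_neg]; · rfl
        have h1 := A.low (c + 1) (by omega) (by omega)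
        have h2 := A.low (c + 2) (by omega) (by omega)
        omega
  · rcases Nat.eq_zero_or_pos i with rfl | hi0
    · unfold ptile
      rw [if_neg (by omega), if_pos rfl, if_neg (by omega), if_neg (by omega), if_neg (by omega),
        if_pos rfl, if_neg (by omega)]
      split_ifs <;> rfl
    · obtain ⟨c, hc⟩ : ∃ c, c + 1 + (j + 1) = i + N := ⟨i + N - j - 2, by omega⟩
      obtain ⟨p1, p2, p3⟩ := inner_par A (by omega) (j := j + 1) (by omega) hc
      have hc' : c + 1 + 1 + j = i + N := by omega
      obtain ⟨q1, q2, q3⟩ := inner_par A (by omega) hj0 hc'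
      rw [ptile_inner hi0 hi hj0 (by omega) (c + 1) hc', gT_nw q1 q2 q3,
        ptile_inner hi0 hi (by omega) (by omega) c hc, gT_se p1 p2 p3]
      by_cases h : min (Y (c + 1)) (Y (c + 2)) ≤ i + j ∧ i + j < max (Y (c + 1)) (Y (c + 2))
      · rw [if_pos (by rw [show c + 1 + 1 = c + 2 by ring]; omega), if_pos (by omega)]
      · rw [if_neg (by rw [show c + 1 + 1 = c + 2 by ring]; omega), if_neg (by omega)]

/-- the mosaic of the height function `Y` -/
def pathMosaic : Mosaic (N + 1) where
  tile := ptile N Y
  outside := fun i j h => ptile_out (by omega)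
  boundary_sw := fun j => by
    unfold ptile
    have := A.pos
    split_ifs <;> first | rfl | omega
  boundary_se := fun i => by
    unfold ptile
    have := A.pos
    split_ifs <;> first | rfl | omega
  ne_sw := ptile_ne_sw A
  nw_se := ptile_nw_se A

/-! ## The word of the mosaic -/

end

/-- the right cusps of the curve between two columns with heights `L`, `C` -/
def Rpart (L C : ℕ) : List Ev :=
  if L < C then List.replicate ((C - L) / 2) ⟨1, .rc true⟩
  else List.replicate ((L - C) / 2) ⟨2, .rc false⟩

/-- the left cusps of the curve between two columns with heights `C`, `R` -/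
def Lpart (C R : ℕ) : List Ev :=
  if R < C then lefts true 1 ((C - R) / 2) else lefts false 2 ((R - C) / 2)

theorem LR_block (C R : ℕ) :
    CEq (Lpart C R ++ Rpart C R)
      ((List.replicate ((max C R - min C R) / 2) (decide (R < C))).flatMap zig) := by
  unfold Lpart Rpart
  rcases Nat.lt_trichotomy R C with h | h | h
  · rw [if_pos h, if_neg (by omega), decide_eq_true h, show max C R - min C R = C - R by omega]
    exact block_down _
  · subst h
    simp [lefts, CEq.refl]
  · rw [if_neg (by omega), if_pos h, decide_eq_false (by omega),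
      show max C R - min C R = R - C by omega]
    exact block_up _

theorem cnt_false (P : ℕ → Bool) (k y : ℕ) (h : ∀ t < k, P (y + 2 * t) = false) :
    cnt P k y = 0 := by
  induction k generalizing y with
  | zero => rfl
  | succ k ih =>
    have h0 := h 0 (by omega)
    simp only [Nat.mul_zero, Nat.add_zero] at h0
    rw [cnt, h0, ih (y + 2) (fun t ht => by
      have := h (t + 1) (by omega)
      rw [show y + 2 * (t + 1) = y + 2 + 2 * t by ring] at this
      exact this)]
    simp

/-- number of cusps of a piece of the curve below the height `C` -/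
theorem cnt_below (A C y a : ℕ) (hA : A % 2 ≠ C % 2) (hyA : y ≤ A + 1) (hC : C = y + 2 * a) :
    cnt (fun z => decide (min A C < z ∧ z < max A C)) a y = (C - A) / 2 := by
  rcases (by omega : A < C ∨ C < A) with h | h
  · rw [cnt_range (A + 1) C a y (by omega) (by omega)]
    · omega
    · intro t ht
      congr 1
      rw [eq_iff_iff]; omega
  · rw [cnt_false]
    · omega
    · intro t ht
      rw [decide_eq_false (by omega)]

/-- number of cusps of a piece of the curve above the height `C` -/
theorem cnt_above (A C b : ℕ) (hA : A % 2 ≠ C % 2) (hb : A + 1 ≤ C + 2 + 2 * b) :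
    cnt (fun z => decide (min A C < z ∧ z < max A C)) b (C + 2) = (A - C) / 2 := by
  rcases (by omega : A < C ∨ C < A) with h | h
  · rw [cnt_false]
    · omega
    · intro t ht
      rw [decide_eq_false (by omega)]
  · rw [cnt_range (C + 2) (A + 1) b (C + 2) (by omega) (by omega)]
    · omega
    · intro t ht
      congr 1
      rw [eq_iff_iff]; omega

/-- The part of a column above the return path. -/
theorem inner_column (L C R y k : ℕ) (hL : L % 2 ≠ C % 2) (hR : R % 2 ≠ C % 2)
    (hy : y % 2 = C % 2) (hyC : y ≤ C) (hyL : y ≤ L + 1) (hyR : y ≤ R + 1)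
    (hkC : C + 2 ≤ y + 2 * k) (hkL : L + 1 ≤ y + 2 * k) (hkR : R + 1 ≤ y + 2 * k) :
    CEq (stk (gT L C R) k y 1) (Rpart L C ++ Lpart C R) := by
  obtain ⟨a, rfl⟩ : ∃ a, C = y + 2 * a := ⟨(C - y) / 2, by omega⟩
  obtain ⟨b, rfl⟩ : ∃ b, k = a + (1 + b) := ⟨k - a - 1, by omega⟩
  set C := y + 2 * a with hC
  set P : ℕ → Bool := fun z => decide (min L C < z ∧ z < max L C) with hP
  set Q : ℕ → Bool := fun z => decide (min R C < z ∧ z < max R C) with hQ
  have hg : ∀ z, z ≠ C → gT L C R z = cuspTile (decide (L < C)) (decide (R < C)) (P z) (Q z) := by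
    intro z hz
    unfold gT
    rw [if_neg hz, min_comm C R, max_comm C R]
  have hg1 : ∀ t < a, gT L C R (y + 2 * t) =
      cuspTile (decide (L < C)) (decide (R < C)) (P (y + 2 * t)) (Q (y + 2 * t)) :=
    fun t ht => hg _ (by omega)
  have hg2 : ∀ t < b, gT L C R (C + 2 + 2 * t) =
      cuspTile (decide (L < C)) (decide (R < C)) (P (C + 2 + 2 * t)) (Q (C + 2 + 2 * t)) :=
    fun t ht => hg _ (by omega)
  have hmid : (gT L C R C).outs = 1 ∧ ∀ h, (gT L C R C).word h = [] := by
    unfold gT
    rw [if_pos rfl]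
    split_ifs <;> exact ⟨rfl, fun h => rfl⟩
  rw [stk_add, stkOuts_cusps _ _ P Q _ a y hg1, ← hC, stk_add, stk, stk, stkOuts, stkOuts,
    hmid.1, hmid.2]
  simp only [List.append_nil, List.nil_append, Nat.mul_one, Nat.add_zero]
  have h1 := stk_cusps _ _ P Q _ a y 1 hg1
  have h2 := stk_cusps _ _ P Q _ b (C + 2) (1 + 2 * cnt Q a y + 1) hg2
  refine (CEq.append h1 h2).trans ?_
  have c1 : cnt P a y = (C - L) / 2 := cnt_below L C y a hL hyL hC
  have c2 : cnt P b (C + 2) = (L - C) / 2 := cnt_above L C b hL (by omega)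
  have c3 : cnt Q a y = (C - R) / 2 := cnt_below R C y a hR hyR hC
  have c4 : cnt Q b (C + 2) = (R - C) / 2 := cnt_above R C b hR (by omega)
  rw [c1, c2, c3, c4]
  clear hg hg1 hg2 hmid h1 h2 c1 c2 c3 c4
  clear_value P Q C
  unfold Rpart Lpart
  rcases (by omega : L < C ∨ C < L) with hLC | hLC <;>
    rcases (by omega : R < C ∨ C < R) with hRC | hRC
  · rw [if_pos hLC, if_pos hRC, decide_eq_true hLC, decide_eq_true hRC,
      show (L - C) / 2 = 0 by omega, show (R - C) / 2 = 0 by omega]
    simp [lefts, CEq.refl]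
  · rw [if_pos hLC, if_neg (by omega), decide_eq_true hLC, decide_eq_false (by omega),
      show (L - C) / 2 = 0 by omega, show (C - R) / 2 = 0 by omega]
    simp [lefts, CEq.refl]
  · rw [if_neg (by omega), if_pos hRC, decide_eq_false (by omega), decide_eq_true hRC,
      show (C - L) / 2 = 0 by omega, show (R - C) / 2 = 0 by omega]
    have h5 := pass_lefts true 1 ((C - R) / 2)
      (List.replicate ((L - C) / 2) ⟨2, .rc false⟩) (by simp +contextual)
    rw [show 1 + 2 * ((C - R) / 2) + 1 = 2 + 2 * ((C - R) / 2) by ring]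
    simpa [lefts, raise] using h5
  · rw [if_neg (by omega), if_neg (by omega), decide_eq_false (by omega),
      decide_eq_false (by omega), show (C - L) / 2 = 0 by omega,
      show (C - R) / 2 = 0 by omega]
    simp [lefts, CEq.refl]

end Pool.Agent.H77.Lm
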