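import Pool.Agent.H77.Lm.Defs

set_option autoImplicit false

/-! # The word of a mosaic describes a front -/

namespace Pool.Agent.H77.Lm

theorem run_append {s t : List Bool} {u v : List Ev} :
    Run s (u ++ v) t ↔ ∃ r, Run s u r ∧ Run r v t := by
  induction u generalizing s with
  | nil => simp [Run]
  | cons e u ih =>
    simp only [List.cons_append, Run, ih]
    constructor
    · rintro ⟨r, h1, r', h2, h3⟩
      exact ⟨r', ⟨r, h1, h2⟩, h3⟩
    · rintro ⟨r', ⟨r, h1, h2⟩, h3⟩
      exact ⟨r, h1, r', h2, h3⟩

/-- directions of the strands which enter the tile from the left -/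
def Tile.insL (t : Tile) : List Bool := t.sw.toList ++ t.nw.toList

/-- directions of the strands which leave the tile to the right -/
def Tile.outsL (t : Tile) : List Bool := t.se.toList ++ t.ne.toList

theorem tile_run (t : Tile) (p q : List Bool) :
    Run (p ++ t.insL ++ q) (t.word p.length) (p ++ t.outsL ++ q) := by
  cases t with
  | blank => simp [Run, Tile.word, Tile.insL, Tile.outsL, Tile.sw, Tile.nw, Tile.se, Tile.ne]
  | cap d => simp [Run, Tile.word, Tile.insL, Tile.outsL, Tile.sw, Tile.nw, Tile.se, Tile.ne]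
  | cup d => simp [Run, Tile.word, Tile.insL, Tile.outsL, Tile.sw, Tile.nw, Tile.se, Tile.ne]
  | up d => simp [Run, Tile.word, Tile.insL, Tile.outsL, Tile.sw, Tile.nw, Tile.se, Tile.ne]
  | down d => simp [Run, Tile.word, Tile.insL, Tile.outsL, Tile.sw, Tile.nw, Tile.se, Tile.ne]
  | capcup d e => simp [Run, Tile.word, Tile.insL, Tile.outsL, Tile.sw, Tile.nw, Tile.se, Tile.ne]
  | rcusp d =>
    exact ⟨_, ⟨p, q, rfl, rfl, rfl⟩, by
      simp [Run, Tile.outsL, Tile.se, Tile.ne, Kind.out]⟩
  | lcusp d =>
    refine ⟨_, ⟨p, q, rfl, ?_, rfl⟩, by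
      simp [Run, Tile.outsL, Tile.se, Tile.ne, Kind.out]⟩
    simp [Tile.insL, Tile.sw, Tile.nw, Kind.inp]
  | cusps d e =>
    refine ⟨p ++ q, ⟨p, q, rfl, rfl, by simp [Kind.out]⟩, _, ⟨p, q, rfl, by simp [Kind.inp], rfl⟩, ?_⟩
    simp [Run, Tile.outsL, Tile.se, Tile.ne, Kind.out]
  | cross d e =>
    exact ⟨_, ⟨p, q, rfl, rfl, rfl⟩, by
      simp [Run, Tile.outsL, Tile.se, Tile.ne, Kind.out]⟩

/-- directions of the strands which enter a column from the left -/
def colIns (T : ℕ → ℕ → Tile) : ℕ → ℕ → ℕ → List Bool
  | 0, _, _ => []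
  | k + 1, i, j => (T i j).insL ++ colIns T k (i + 1) (j + 1)

/-- directions of the strands which leave a column to the right -/
def colOuts (T : ℕ → ℕ → Tile) : ℕ → ℕ → ℕ → List Bool
  | 0, _, _ => []
  | k + 1, i, j => (T i j).outsL ++ colOuts T k (i + 1) (j + 1)

theorem column_run (T : ℕ → ℕ → Tile) (k i j : ℕ) (p : List Bool) :
    Run (p ++ colIns T k i j) (column T k i j p.length) (p ++ colOuts T k i j) := by
  induction k generalizing i j p with
  | zero => simp [colIns, colOuts, column, Run]
  | succ k ih =>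
    rw [column, run_append]
    refine ⟨p ++ (T i j).outsL ++ colIns T k (i + 1) (j + 1), ?_, ?_⟩
    · have := tile_run (T i j) p (colIns T k (i + 1) (j + 1))
      simpa [colIns] using this
    · have := ih (i + 1) (j + 1) (p ++ (T i j).outsL)
      have h2 : (p ++ (T i j).outsL).length = p.length + (T i j).outs := by
        simp [Tile.outsL, Tile.outs]
      rw [h2] at this
      simpa [colOuts] using this

theorem shift_left {n : ℕ} (M : Mosaic n) (k i j : ℕ) :
    (M.tile i j).sw.toList ++ colOuts M.tile k i (j + 1) =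
      colIns M.tile k i j ++ (M.tile (i + k) (j + k)).sw.toList := by
  induction k generalizing i j with
  | zero => simp [colOuts, colIns]
  | succ k ih =>
    have h := ih (i + 1) (j + 1)
    simp only [colOuts, colIns, Tile.insL, Tile.outsL, M.nw_se i j, M.ne_sw i (j + 1)]
    rw [show i + (k + 1) = i + 1 + k by ring, show j + (k + 1) = j + 1 + k by ring]
    simp only [List.append_assoc]
    rw [h]

theorem shift_right {n : ℕ} (M : Mosaic n) (k i j : ℕ) :
    (M.tile i j).se.toList ++ colIns M.tile k (i + 1) j =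
      colOuts M.tile k i j ++ (M.tile (i + k) (j + k)).se.toList := by
  induction k generalizing i j with
  | zero => simp [colOuts, colIns]
  | succ k ih =>
    have h := ih (i + 1) (j + 1)
    simp only [colOuts, colIns, Tile.insL, Tile.outsL, ← M.ne_sw i j, M.nw_se (i + 1) j]
    rw [show i + (k + 1) = i + 1 + k by ring, show j + (k + 1) = j + 1 + k by ring]
    simp only [List.append_assoc]
    rw [h]

theorem sw_blank : Tile.blank.sw = none := rfl
theorem se_blank : Tile.blank.se = none := rfl
theorem nw_blank : Tile.blank.nw = none := rfl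
theorem ne_blank : Tile.blank.ne = none := rfl

theorem colOuts_blank {n : ℕ} (M : Mosaic n) (k i j : ℕ) (h : n ≤ j) :
    colOuts M.tile k i j = [] := by
  induction k generalizing i j with
  | zero => rfl
  | succ k ih =>
    simp [colOuts, M.outside i j (Or.inr h), Tile.outsL, Tile.se, Tile.ne, ih (i + 1) (j + 1) (by omega)]

theorem colIns_blank {n : ℕ} (M : Mosaic n) (k i j : ℕ) (h : n ≤ i) :
    colIns M.tile k i j = [] := by
  induction k generalizing i j with
  | zero => rfl
  | succ k ih =>
    simp [colIns, M.outside i j (Or.inl h), Tile.insL, Tile.sw, Tile.nw, ih (i + 1) (j + 1) (by omega)]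

theorem colIns_first {N : ℕ} (M : Mosaic (N + 1)) : colIns M.tile (N + 1) 0 N = [] := by
  have h := shift_left M (N + 1) 0 N
  rw [M.boundary_sw, colOuts_blank M _ _ _ le_rfl,
    M.outside (0 + (N + 1)) _ (Or.inl (by omega)), sw_blank] at h
  simpa using h.symm

theorem colOuts_last {N : ℕ} (M : Mosaic (N + 1)) : colOuts M.tile (N + 1) N 0 = [] := by
  have h := shift_right M (N + 1) N 0
  rw [M.boundary_se, colIns_blank M _ _ _ le_rfl,
    M.outside (N + (N + 1)) _ (Or.inl (by omega)), se_blank] at h
  simpa using h.symm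

theorem colOuts_next {N : ℕ} (M : Mosaic (N + 1)) (c : ℕ) :
    colOuts M.tile (N + 1) (c - N) (N - c) = colIns M.tile (N + 1) (c + 1 - N) (N - (c + 1)) := by
  rcases Nat.lt_or_ge c N with h | h
  · have h1 := shift_left M (N + 1) 0 (N - (c + 1))
    rw [M.boundary_sw, M.outside (0 + (N + 1)) _ (Or.inl (by omega)), sw_blank] at h1
    rw [show c - N = 0 by omega, show c + 1 - N = 0 by omega, show N - c = N - (c + 1) + 1 by omega]
    simpa using h1
  · have h1 := shift_right M (N + 1) (c - N) 0
    rw [M.boundary_se, M.outside _ (0 + (N + 1)) (Or.inr (by omega)), se_blank] at h1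
    rw [show c + 1 - N = c - N + 1 by omega, show N - c = 0 by omega,
      show N - (c + 1) = 0 by omega]
    simpa using h1.symm

theorem columns_run {N : ℕ} (M : Mosaic (N + 1)) (m : ℕ) :
    Run [] ((List.range m).flatMap fun c => column M.tile (N + 1) (c - N) (N - c) 0)
      (colIns M.tile (N + 1) (m - N) (N - m)) := by
  induction m with
  | zero => simp [Run, colIns_first M]
  | succ m ih =>
    rw [List.range_succ, List.flatMap_append, run_append]
    refine ⟨_, ih, ?_⟩
    have := column_run M.tile (N + 1) (m - N) (N - m) []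
    rw [colOuts_next] at this
    simpa using this

theorem mosaic_closed {n : ℕ} (M : Mosaic n) : Run [] M.word [] := by
  cases n with
  | zero => simp [Mosaic.word, Run]
  | succ N =>
    have h := columns_run M (2 * N + 1)
    rw [colIns_blank M _ _ _ (by omega)] at h
    have e : M.word = (List.range (2 * N + 1)).flatMap
        fun c => column M.tile (N + 1) (c - N) (N - c) 0 := by
      rw [Mosaic.word, show 2 * (N + 1) - 1 = 2 * N + 1 by omega, show N + 1 - 1 = N by omega]
    rw [e]
    exact h

/-- The front depicted by a mosaic. -/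
def Mosaic.front {n : ℕ} (M : Mosaic n) : Front := ⟨M.word, mosaic_closed M⟩

/-- `Λ` is depicted by a Legendrian `n`-mosaic. -/
def HasMosaic (n : ℕ) (Λ : Knot) : Prop := ∃ M : Mosaic n, M.front.link = Λ.1

/-- The Legendrian mosaic number: the least `n` such that some Legendrian `n`-mosaic depicts a front
of `Λ` (and `⊤` if there were no such `n`). -/
noncomputable def mosaicNumber (Λ : Knot) : ℕ∞ := ⨅ n ∈ {n : ℕ | HasMosaic n Λ}, (n : ℕ∞)

end Pool.Agent.H77.Lm
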