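import Pool.Agent.H77.Lm.PathMosaic

set_option autoImplicit false

/-! # The front of the mosaic of a height function -/

namespace Pool.Agent.H77.Lm

theorem column_blank {N : ℕ} {Y : ℕ → ℕ} (k i j h : ℕ) (H : N < i ∨ N < j) :
    column (ptile N Y) k i j h = [] := by
  induction k generalizing i j h with
  | zero => rfl
  | succ k ih =>
    rw [column, ptile_out H, ih _ _ _ (by omega)]
    rfl

theorem gT_blank {L C R y : ℕ} (h1 : L < y) (h2 : C < y) (h3 : R < y) : gT L C R y = .blank := by
  unfold gT
  rw [if_neg (by omega), decide_eq_false (p := min L C < y ∧ y < max L C) (by omega),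
    decide_eq_false (p := min C R < y ∧ y < max C R) (by omega)]
  rfl

section
variable {N : ℕ} {Y : ℕ → ℕ} (A : Adm N Y)
include A

theorem Adm.le (c : ℕ) (hc : c ≤ 2 * N) : Y c ≤ N + c ∧ Y c + c ≤ 3 * N ∧ N ≤ Y c + c ∧ c ≤ Y c + N := by
  rcases Nat.eq_zero_or_pos c with rfl | h1
  · have := A.zero; omega
  rcases Nat.eq_or_lt_of_le hc with rfl | h2
  · have := A.last; omega
  · have := A.high c h1 h2
    have := A.low c h1 h2
    omega

theorem col_zero : column (ptile N Y) (N + 1) (0 - N) (N - 0) 0 = [⟨0, .lc false⟩] := by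
  have hN := A.pos
  have e : ptile N Y 0 N = .lcusp false := by
    unfold ptile
    rw [if_neg (by omega), if_pos rfl, if_neg (by omega), if_pos rfl]
  rw [Nat.zero_sub, Nat.sub_zero, column, e, column_blank _ _ _ _ (by omega)]
  rfl

theorem col_last : column (ptile N Y) (N + 1) (2 * N - N) (N - 2 * N) 0 = [⟨0, .rc false⟩] := by
  have hN := A.pos
  have e : ptile N Y N 0 = .rcusp false := by
    unfold ptile
    rw [if_neg (by omega), if_neg (by omega), if_pos rfl, if_pos rfl]
  rw [show 2 * N - N = N by omega, show N - 2 * N = 0 by omega, column, e,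
    column_blank _ _ _ _ (by omega)]
  rfl

theorem col_mid (c : ℕ) (hc : c + 1 < 2 * N) :
    CEq (column (ptile N Y) (N + 1) (c + 1 - N) (N - (c + 1)) 0)
      (Rpart (Y c) (Y (c + 1)) ++ Lpart (Y (c + 1)) (Y (c + 2))) := by
  have hN := A.pos
  have h0 : (ptile N Y (c + 1 - N) (N - (c + 1))).outs = 1 ∧
      ∀ h, (ptile N Y (c + 1 - N) (N - (c + 1))).word h = [] := by
    unfold ptile
    rw [if_neg (by omega)]
    by_cases h1 : c + 1 - N = 0
    · rw [if_pos h1]
      by_cases h2 : N - (c + 1) = 0
      · rw [if_pos h2]; exact ⟨rfl, fun _ => rfl⟩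
      · rw [if_neg h2, if_neg (by omega)]; exact ⟨rfl, fun _ => rfl⟩
    · rw [if_neg h1, if_pos (by omega), if_neg (by omega)]; exact ⟨rfl, fun _ => rfl⟩
  have b0 := A.le c (by omega)
  have b1 := A.le (c + 1) (by omega)
  have b2 := A.le (c + 2) (by omega)
  have l1 := A.low (c + 1) (by omega) hc
  have g1 := A.high (c + 1) (by omega) hc
  have p0 := A.par c (by omega)
  have p1 := A.par (c + 1) (by omega)
  have p2 := A.par (c + 2) (by omega)
  have l0 : (1 ≤ c ∧ N + 2 ≤ Y c + c ∧ c + 2 ≤ Y c + N) ∨ c = 0 := by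
    rcases Nat.eq_zero_or_pos c with h | h
    · exact Or.inr h
    · exact Or.inl ⟨h, A.low c h (by omega)⟩
  have l2 : (N + 2 ≤ Y (c + 2) + (c + 2) ∧ c + 2 + 2 ≤ Y (c + 2) + N) ∨ c + 2 = 2 * N := by
    rcases Nat.lt_or_ge (c + 2) (2 * N) with h | h
    · exact Or.inl (A.low (c + 2) (by omega) h)
    · exact Or.inr (by omega)
  rw [column, h0.1, h0.2, List.nil_append, Nat.zero_add]
  rw [column_eq_stk (ptile N Y) (gT (Y c) (Y (c + 1)) (Y (c + 2))) N _ _
    (c + 1 - N + 1 + (N - (c + 1) + 1)) 1]
  · apply inner_column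
    · omega
    · omega
    · omega
    · omega
    · omega
    · omega
    · omega
    · omega
    · omega
  · intro t ht
    by_cases h : N < c + 1 - N + 1 + t ∨ N < N - (c + 1) + 1 + t
    · rw [ptile_out h, gT_blank]
      · omega
      · omega
      · omega
    · rw [ptile_inner (by omega) (by omega) (by omega) (by omega) c (by omega)]
      congr 1
      omega

/-- the zigzags of the curve: `true` for a downward one, `false` for an upward one -/
def zigs (N : ℕ) (Y : ℕ → ℕ) : List Bool :=
  (List.range (2 * N - 1)).flatMap fun c =>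
    List.replicate ((max (Y c) (Y (c + 1)) - min (Y c) (Y (c + 1))) / 2) (decide (Y (c + 1) < Y c))

theorem path_prefix (m : ℕ) (hm : m + 1 ≤ 2 * N) :
    CEq ((List.range (m + 1)).flatMap fun c => column (ptile N Y) (N + 1) (c - N) (N - c) 0)
      ([⟨0, .lc false⟩] ++ ((List.range m).flatMap fun c =>
        (List.replicate ((max (Y c) (Y (c + 1)) - min (Y c) (Y (c + 1))) / 2)
          (decide (Y (c + 1) < Y c))).flatMap zig) ++ Lpart (Y m) (Y (m + 1))) := by
  induction m with
  | zero =>
    have h1 := A.zero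
    have h2 := A.low 1 le_rfl (by omega)
    have h3 := A.high 1 le_rfl (by omega)
    have h4 : Lpart (Y 0) (Y (0 + 1)) = [] := by
      unfold Lpart
      rw [if_neg (by simp only [Nat.zero_add]; omega)]
      rw [show (Y (0 + 1) - Y 0) / 2 = 0 by simp only [Nat.zero_add]; omega]
      rfl
    rw [h4]
    simp only [Nat.zero_add, List.range_one, List.flatMap_cons, List.flatMap_nil, List.append_nil,
      List.range_zero]
    rw [col_zero A]
    exact CEq.refl _
  | succ m ih =>
    have ih' := ih (by omega)
    have h1 := col_mid A m (by omega)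
    rw [List.range_succ, List.flatMap_append, List.flatMap_singleton]
    refine (CEq.append ih' h1).trans ?_
    rw [List.range_succ, List.flatMap_append, List.flatMap_singleton]
    have h2 := LR_block (Y m) (Y (m + 1))
    have h3 := CEq.append_left ([⟨0, .lc false⟩] ++ ((List.range m).flatMap fun c =>
        (List.replicate ((max (Y c) (Y (c + 1)) - min (Y c) (Y (c + 1))) / 2)
          (decide (Y (c + 1) < Y c))).flatMap zig))
      (CEq.append_right (Lpart (Y (m + 1)) (Y (m + 2))) h2)
    simpa only [List.append_assoc] using h3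

/-- The front of the mosaic of `Y` is planar isotopic to the standard front. -/
theorem path_word : CEq (pathMosaic A).word
    ([⟨0, .lc false⟩] ++ (zigs N Y).flatMap zig ++ [⟨0, .rc false⟩]) := by
  have hN := A.pos
  obtain ⟨K, hK⟩ : ∃ K, 2 * N = K + 1 := ⟨2 * N - 1, by omega⟩
  have h1 := path_prefix A K (by omega)
  have h4 : Lpart (Y K) (Y (K + 1)) = [] := by
    have h1 := A.last
    have h2 := A.low K (by omega) (by omega)
    have h3 := A.high K (by omega) (by omega)
    rw [← hK, h1]
    unfold Lpart
    rw [if_pos (by omega), show (Y K - N) / 2 = 0 by omega]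
    rfl
  rw [h4, List.append_nil] at h1
  have e : (pathMosaic A).word = (List.range (2 * N + 1)).flatMap
      fun c => column (ptile N Y) (N + 1) (c - N) (N - c) 0 := by
    rw [Mosaic.word, show 2 * (N + 1) - 1 = 2 * N + 1 by omega, show N + 1 - 1 = N by omega]
    rfl
  rw [e, List.range_succ, List.flatMap_append, List.flatMap_singleton, hK]
  have h5 := CEq.append_right (column (ptile N Y) (N + 1) (K + 1 - N) (N - (K + 1)) 0) h1
  refine h5.trans ?_
  rw [← hK, col_last A]
  have e2 : (zigs N Y).flatMap zig = ((List.range K).flatMap fun c =>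
        (List.replicate ((max (Y c) (Y (c + 1)) - min (Y c) (Y (c + 1))) / 2)
          (decide (Y (c + 1) < Y c))).flatMap zig) := by
    rw [zigs, List.flatMap_assoc, show 2 * N - 1 = K by omega]
  rw [e2]
  exact CEq.refl _

end

end Pool.Agent.H77.Lm
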